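import Pool.Agent.R688.GU.Defs

set_option autoImplicit false

/-!
# A criterion for the Golod property
-/

namespace Pool.Agent.R688.GU

variable {R : Type} [CommRing R] {n : ℕ} (x : Fin n → R)

theorem kd_hom {b : Kos R n} {d : ℕ} (hb : IsHom b (d + 1)) : IsHom (kd x b) d := by
  intro s hs
  unfold kd at hs
  obtain ⟨j, hj, hj2⟩ := Finset.exists_ne_zero_of_sum_ne_zero hs
  have h1 : b (insert j s) ≠ 0 := by
    intro h
    rw [h, mul_zero, smul_zero] at hj2
    exact hj2 rfl
  have h2 := hb _ h1
  rw [Finset.card_insert_of_notMem (Finset.mem_compl.1 hj)] at h2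
  omega

theorem kmul_zero_of {𝔞 : Ideal R} (h𝔞 : 𝔞 * 𝔞 = ⊥) {a b : Kos R n}
    (ha : ∀ s, a s ∈ 𝔞) (hb : ∀ s, b s ∈ 𝔞) : kmul a b = 0 := by
  funext s
  unfold kmul
  refine Finset.sum_eq_zero fun t _ => ?_
  have h : a t * b (s \ t) ∈ 𝔞 * 𝔞 := Ideal.mul_mem_mul (ha _) (hb _)
  rw [h𝔞, Ideal.mem_bot] at h
  rw [h, smul_zero]

theorem bar_mem {𝔞 : Ideal R} {a : Kos R n} (ha : ∀ s, a s ∈ 𝔞) : ∀ s, bar a s ∈ 𝔞 :=
  fun s => Ideal.mul_mem_left _ _ (ha s)

theorem bar_zero : bar (0 : Kos R n) = 0 := by
  funext s; unfold bar; simp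

theorem kmul_zero_left (b : Kos R n) : kmul 0 b = 0 := by
  funext s; unfold kmul; simp

theorem kmul_zero_right (a : Kos R n) : kmul a 0 = 0 := by
  funext s; unfold kmul; simp

theorem kd_zero : kd x (0 : Kos R n) = 0 := by
  funext s; unfold kd; simp

theorem kd_neg (a : Kos R n) : kd x (-a) = - kd x a := by
  funext s; unfold kd; simp

/-- if all cycles of positive degree are homologous to cycles with coefficients in an ideal of
square zero, then there is a trivial Massey operation -/
theorem isGolod_of {𝔞 : Ideal R} (h𝔞 : 𝔞 * 𝔞 = ⊥)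
    (h : ∀ z : PosCycle x, ∃ b : Kos R n, IsHom b (z.deg + 1) ∧
      ∀ s, (z.val - kd x b) s ∈ 𝔞) : IsGolod x := by
  choose b hb hb' using h
  let γ : List (PosCycle x) → Kos R n := fun l => match l with
    | [z] => z.val - kd x (b z)
    | _ => 0
  have h0 : ∀ l : List (PosCycle x), 2 ≤ l.length → γ l = 0 := by
    intro l hl
    match l, hl with
    | [], hl => simp at hl
    | [z], hl => simp at hl
    | _ :: _ :: _, _ => rfl
  have h1 : ∀ l : List (PosCycle x), l.length = 1 → ∀ s, γ l s ∈ 𝔞 := by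
    intro l hl
    obtain ⟨z, rfl⟩ := List.length_eq_one_iff.1 hl
    exact hb' z
  refine ⟨γ, fun z => ⟨- b z, ?_⟩, fun l hl => ?_, fun l hl => ?_⟩
  · change z.val - kd x (b z) - z.val = _
    rw [kd_neg]
    abel
  · rcases Nat.lt_or_ge l.length 2 with h2 | h2
    · have h3 : l.length = 1 := by
        have := List.length_pos_iff.2 hl
        omega
      obtain ⟨z, rfl⟩ := List.length_eq_one_iff.1 h3
      have h4 : (([z] : List (PosCycle x)).map PosCycle.deg).sum + [z].length - 1 = z.deg := by
        simp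
      rw [h4]
      intro s hs
      by_contra hcon
      apply hs
      have h5 : z.val s = 0 := by
        by_contra h6
        exact hcon (z.hom s h6)
      have h6 : kd x (b z) s = 0 := by
        by_contra h7
        exact hcon (kd_hom x (hb z) s h7)
      change z.val s - kd x (b z) s = 0
      rw [h5, h6, sub_zero]
    · rw [h0 l h2]
      intro s hs
      exact absurd rfl hs
  · rw [h0 l hl, kd_zero]
    symm
    refine Finset.sum_eq_zero fun i hi => ?_
    rw [Finset.mem_Ico] at hi
    have h2 : (l.take i).length = i := by rw [List.length_take]; omega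
    have h3 : (l.drop i).length = l.length - i := List.length_drop
    by_cases h4 : 2 ≤ i
    · rw [h0 (l.take i) (by omega), bar_zero, kmul_zero_left]
    · by_cases h5 : 2 ≤ l.length - i
      · rw [h0 (l.drop i) (by omega), kmul_zero_right]
      · exact kmul_zero_of h𝔞 (bar_mem (h1 _ (by omega))) (h1 _ (by omega))

section three

variable (x : Fin 3 → R)

theorem cases8 (s : Finset (Fin 3)) : s = ∅ ∨ s = {0} ∨ s = {1} ∨ s = {2} ∨ s = {0, 1} ∨
    s = {0, 2} ∨ s = {1, 2} ∨ s = {0, 1, 2} := by
  revert s; decide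

theorem kd_empty (a : Kos R 3) : kd x a ∅ = x 0 * a {0} + x 1 * a {1} + x 2 * a {2} := by
  have h : (∅ᶜ : Finset (Fin 3)) = {0, 1, 2} := by decide
  unfold kd
  rw [h]
  rw [Finset.sum_insert (by decide), Finset.sum_insert (by decide), Finset.sum_singleton]
  rw [show sgn ({0} : Finset (Fin 3)) ∅ = 1 by decide, show sgn ({1} : Finset (Fin 3)) ∅ = 1 by decide,
    show sgn ({2} : Finset (Fin 3)) ∅ = 1 by decide]
  simp only [one_smul, insert_empty_eq]
  ring

theorem kd_0 (a : Kos R 3) : kd x a {0} = - (x 1 * a {0, 1}) - x 2 * a {0, 2} := by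
  have h : ({0}ᶜ : Finset (Fin 3)) = {1, 2} := by decide
  unfold kd
  rw [h, Finset.sum_insert (by decide), Finset.sum_singleton,
    show sgn ({1} : Finset (Fin 3)) {0} = -1 by decide,
    show sgn ({2} : Finset (Fin 3)) {0} = -1 by decide,
    show (insert 1 {0} : Finset (Fin 3)) = {0, 1} by decide,
    show (insert 2 {0} : Finset (Fin 3)) = {0, 2} by decide]
  simp only [neg_smul, one_smul]
  ring

theorem kd_1 (a : Kos R 3) : kd x a {1} = x 0 * a {0, 1} - x 2 * a {1, 2} := by
  have h : ({1}ᶜ : Finset (Fin 3)) = {0, 2} := by decide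
  unfold kd
  rw [h, Finset.sum_insert (by decide), Finset.sum_singleton,
    show sgn ({0} : Finset (Fin 3)) {1} = 1 by decide,
    show sgn ({2} : Finset (Fin 3)) {1} = -1 by decide,
    show (insert 0 {1} : Finset (Fin 3)) = {0, 1} by decide,
    show (insert 2 {1} : Finset (Fin 3)) = {1, 2} by decide]
  simp only [neg_smul, one_smul]
  ring

theorem kd_2 (a : Kos R 3) : kd x a {2} = x 0 * a {0, 2} + x 1 * a {1, 2} := by
  have h : ({2}ᶜ : Finset (Fin 3)) = {0, 1} := by decide
  unfold kd
  rw [h, Finset.sum_insert (by decide), Finset.sum_singleton,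
    show sgn ({0} : Finset (Fin 3)) {2} = 1 by decide,
    show sgn ({1} : Finset (Fin 3)) {2} = 1 by decide,
    show (insert 0 {2} : Finset (Fin 3)) = {0, 2} by decide,
    show (insert 1 {2} : Finset (Fin 3)) = {1, 2} by decide]
  simp only [one_smul]

theorem kd_01 (a : Kos R 3) : kd x a {0, 1} = x 2 * a {0, 1, 2} := by
  have h : ({0, 1}ᶜ : Finset (Fin 3)) = {2} := by decide
  unfold kd
  rw [h, Finset.sum_singleton, show sgn ({2} : Finset (Fin 3)) {0, 1} = 1 by decide,
    show (insert 2 {0, 1} : Finset (Fin 3)) = {0, 1, 2} by decide, one_smul]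

theorem kd_02 (a : Kos R 3) : kd x a {0, 2} = - (x 1 * a {0, 1, 2}) := by
  have h : ({0, 2}ᶜ : Finset (Fin 3)) = {1} := by decide
  unfold kd
  rw [h, Finset.sum_singleton, show sgn ({1} : Finset (Fin 3)) {0, 2} = -1 by decide,
    show (insert 1 {0, 2} : Finset (Fin 3)) = {0, 1, 2} by decide, neg_smul, one_smul]

theorem kd_12 (a : Kos R 3) : kd x a {1, 2} = x 0 * a {0, 1, 2} := by
  have h : ({1, 2}ᶜ : Finset (Fin 3)) = {0} := by decide
  unfold kd
  rw [h, Finset.sum_singleton, show sgn ({0} : Finset (Fin 3)) {1, 2} = 1 by decide, one_smul]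

theorem kd_012 (a : Kos R 3) : kd x a {0, 1, 2} = 0 := by
  have h : ({0, 1, 2}ᶜ : Finset (Fin 3)) = ∅ := by decide
  unfold kd
  rw [h, Finset.sum_empty]

/-- the element with the given coefficients in degrees two and three -/
def el (f : Fin 3 → R) (u : R) : Kos R 3 := fun s =>
  if s = {1, 2} then f 0 else if s = {0, 2} then f 1 else if s = {0, 1} then f 2 else
    if s = {0, 1, 2} then u else 0

theorem el_12 (f : Fin 3 → R) (u : R) : el f u {1, 2} = f 0 := by
  unfold el; rw [if_pos rfl]
theorem el_02 (f : Fin 3 → R) (u : R) : el f u {0, 2} = f 1 := by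
  unfold el; rw [if_neg (by decide), if_pos rfl]
theorem el_01 (f : Fin 3 → R) (u : R) : el f u {0, 1} = f 2 := by
  unfold el; rw [if_neg (by decide), if_neg (by decide), if_pos rfl]
theorem el_012 (f : Fin 3 → R) (u : R) : el f u {0, 1, 2} = u := by
  unfold el; rw [if_neg (by decide), if_neg (by decide), if_neg (by decide), if_pos rfl]
theorem el_of_ne (f : Fin 3 → R) (u : R) (s : Finset (Fin 3)) (h : s.card ≤ 1) : el f u s = 0 := by
  unfold el
  rw [if_neg, if_neg, if_neg, if_neg] <;> · rintro rfl; revert h; decide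

/-- a convenient form of the criterion in terms of coordinates -/
theorem isGolod_three {𝔞 : Ideal R} (h𝔞 : 𝔞 * 𝔞 = ⊥)
    (h1 : ∀ v : Fin 3 → R, v 0 * x 0 + v 1 * x 1 + v 2 * x 2 = 0 → ∃ f : Fin 3 → R,
      v 0 + f 1 * x 2 + f 2 * x 1 ∈ 𝔞 ∧ v 1 - f 2 * x 0 + f 0 * x 2 ∈ 𝔞 ∧
      v 2 - f 0 * x 1 - f 1 * x 0 ∈ 𝔞)
    (h2 : ∀ f : Fin 3 → R, f 1 * x 2 + f 2 * x 1 = 0 → f 2 * x 0 = f 0 * x 2 →
      f 0 * x 1 + f 1 * x 0 = 0 → ∃ u, f 0 - u * x 0 ∈ 𝔞 ∧ f 1 + u * x 1 ∈ 𝔞 ∧
      f 2 - u * x 2 ∈ 𝔞)
    (h3 : ∀ f : R, (∀ i, f * x i = 0) → f ∈ 𝔞) : IsGolod x := by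
  refine isGolod_of _ h𝔞 fun ζ => ?_
  obtain ⟨deg, a, pos, hom, cycle⟩ := ζ
  have hz : ∀ s : Finset (Fin 3), s.card ≠ deg → a s = 0 := by
    intro s hs
    by_contra h
    exact hs (hom s h)
  have c_e := congrFun cycle ∅
  have c_0 := congrFun cycle {0}
  have c_1 := congrFun cycle {1}
  have c_2 := congrFun cycle {2}
  have c_01 := congrFun cycle {0, 1}
  have c_02 := congrFun cycle {0, 2}
  have c_12 := congrFun cycle {1, 2}
  rw [kd_empty, Pi.zero_apply] at c_e
  rw [kd_0, Pi.zero_apply] at c_0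
  rw [kd_1, Pi.zero_apply] at c_1
  rw [kd_2, Pi.zero_apply] at c_2
  rw [kd_01, Pi.zero_apply] at c_01
  rw [kd_02, Pi.zero_apply] at c_02
  rw [kd_12, Pi.zero_apply] at c_12
  match deg, pos with
  | 1, _ =>
    obtain ⟨f, h4, h5, h6⟩ := h1 ![a {0}, a {1}, a {2}] (by
      simp only [Matrix.cons_val_zero, Matrix.cons_val_one, Matrix.cons_val]
      linear_combination c_e)
    simp only [Matrix.cons_val_zero, Matrix.cons_val_one, Matrix.cons_val] at h4 h5 h6
    refine ⟨el f 0, ?_, ?_⟩
    · intro s hs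
      change s.card = 2
      rcases cases8 s with rfl | rfl | rfl | rfl | rfl | rfl | rfl | rfl
      · exact absurd (el_of_ne f 0 _ (by decide)) hs
      · exact absurd (el_of_ne f 0 _ (by decide)) hs
      · exact absurd (el_of_ne f 0 _ (by decide)) hs
      · exact absurd (el_of_ne f 0 _ (by decide)) hs
      · rfl
      · rfl
      · rfl
      · exact absurd (el_012 f 0) hs
    · intro s
      change a s - kd x (el f 0) s ∈ 𝔞
      rcases cases8 s with rfl | rfl | rfl | rfl | rfl | rfl | rfl | rfl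
      · rw [hz ∅ (by decide), kd_empty, el_of_ne _ _ _ (by decide), el_of_ne _ _ _ (by decide),
          el_of_ne _ _ _ (by decide)]
        simp
      · rw [kd_0, el_01, el_02]
        convert h4 using 1
        ring
      · rw [kd_1, el_01, el_12]
        convert h5 using 1
        ring
      · rw [kd_2, el_02, el_12]
        convert h6 using 1
        ring
      · rw [hz {0, 1} (by decide), kd_01, el_012]; simp
      · rw [hz {0, 2} (by decide), kd_02, el_012]; simp
      · rw [hz {1, 2} (by decide), kd_12, el_012]; simp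
      · rw [hz {0, 1, 2} (by decide), kd_012]; simp
  | 2, _ =>
    obtain ⟨u, h4, h5, h6⟩ := h2 ![a {1, 2}, a {0, 2}, a {0, 1}] (by
      simp only [Matrix.cons_val_zero, Matrix.cons_val_one, Matrix.cons_val]
      linear_combination - c_0) (by
      simp only [Matrix.cons_val_zero, Matrix.cons_val]
      linear_combination c_1) (by
      simp only [Matrix.cons_val_zero, Matrix.cons_val_one]
      linear_combination c_2)
    simp only [Matrix.cons_val_zero, Matrix.cons_val_one, Matrix.cons_val] at h4 h5 h6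
    refine ⟨el 0 u, ?_, ?_⟩
    · intro s hs
      change s.card = 3
      rcases cases8 s with rfl | rfl | rfl | rfl | rfl | rfl | rfl | rfl
      · exact absurd (el_of_ne _ _ _ (by decide)) hs
      · exact absurd (el_of_ne _ _ _ (by decide)) hs
      · exact absurd (el_of_ne _ _ _ (by decide)) hs
      · exact absurd (el_of_ne _ _ _ (by decide)) hs
      · exact absurd (el_01 _ _) hs
      · exact absurd (el_02 _ _) hs
      · exact absurd (el_12 _ _) hs
      · rfl
    · intro s
      change a s - kd x (el 0 u) s ∈ 𝔞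
      rcases cases8 s with rfl | rfl | rfl | rfl | rfl | rfl | rfl | rfl
      · rw [hz ∅ (by decide), kd_empty, el_of_ne _ _ _ (by decide), el_of_ne _ _ _ (by decide),
          el_of_ne _ _ _ (by decide)]
        simp
      · rw [hz {0} (by decide), kd_0, el_01, el_02]; simp
      · rw [hz {1} (by decide), kd_1, el_01, el_12]; simp
      · rw [hz {2} (by decide), kd_2, el_02, el_12]; simp
      · rw [kd_01, el_012]
        convert h6 using 1
        ring
      · rw [kd_02, el_012]
        convert h5 using 1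
        ring
      · rw [kd_12, el_012]
        convert h4 using 1
        ring
      · rw [hz {0, 1, 2} (by decide), kd_012]; simp
  | 3, _ =>
    refine ⟨0, fun s hs => absurd rfl hs, fun s => ?_⟩
    rw [kd_zero, sub_zero]
    change a s ∈ 𝔞
    rcases cases8 s with rfl | rfl | rfl | rfl | rfl | rfl | rfl | rfl
    · rw [hz ∅ (by decide)]; exact Ideal.zero_mem _
    · rw [hz {0} (by decide)]; exact Ideal.zero_mem _
    · rw [hz {1} (by decide)]; exact Ideal.zero_mem _
    · rw [hz {2} (by decide)]; exact Ideal.zero_mem _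
    · rw [hz {0, 1} (by decide)]; exact Ideal.zero_mem _
    · rw [hz {0, 2} (by decide)]; exact Ideal.zero_mem _
    · rw [hz {1, 2} (by decide)]; exact Ideal.zero_mem _
    · apply h3
      intro i
      fin_cases i
      · simp only [Fin.zero_eta]; linear_combination c_12
      · simp only [Fin.mk_one]; linear_combination - c_02
      · simp only [Fin.reduceFinMk]; linear_combination c_01
  | d + 4, _ =>
    refine ⟨0, fun s hs => absurd rfl hs, fun s => ?_⟩
    rw [kd_zero, sub_zero]
    change a s ∈ 𝔞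
    rw [hz s (by
      have := Finset.card_le_univ s
      simp at this
      omega)]
    exact Ideal.zero_mem _

end three

end Pool.Agent.R688.GU
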