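import Mathlib

set_option autoImplicit false

/-!
# Golod quotients of polynomial rings: definitions
-/

open CategoryTheory MvPolynomial

namespace Pool.Agent.R688.GU

section Koszul

variable {R : Type} [CommRing R] {n : ℕ}

/-- The underlying module of the Koszul complex of `R` on `n` elements: an element is the family of
its coefficients with respect to the basis `e_s = e_{i₁} ∧ … ∧ e_{iᵣ}`,
`s = {i₁ < … < iᵣ} ⊆ {0, …, n - 1}`. -/
abbrev Kos (R : Type) (n : ℕ) : Type := Finset (Fin n) → R

/-- `a` is homogeneous of (homological) degree `d` -/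
def IsHom (a : Kos R n) (d : ℕ) : Prop := ∀ s, a s ≠ 0 → s.card = d

/-- the sign with which `e_t ∧ e_u = sgn t u • e_(t ∪ u)` for disjoint `t`, `u`: the parity of the
number of the pairs `(i, j) ∈ t × u` with `j < i` -/
def sgn (t u : Finset (Fin n)) : ℤ := (-1) ^ ((t ×ˢ u).filter (fun p => p.2 < p.1)).card

/-- the (exterior) product of the Koszul complex -/
def kmul (a b : Kos R n) : Kos R n := fun s => ∑ t ∈ s.powerset, sgn t (s \ t) • (a t * b (s \ t))

/-- The differential of the Koszul complex of `R` on `x 0, …, x (n - 1)`: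
`e_{i₁} ∧ … ∧ e_{iᵣ} ↦ ∑ j, (-1)^(j - 1) x_{i_j} e_{i₁} ∧ … (omit e_{i_j}) … ∧ e_{iᵣ}`. -/
def kd (x : Fin n → R) (a : Kos R n) : Kos R n :=
  fun s => ∑ j ∈ sᶜ, sgn {j} s • (x j * a (insert j s))

/-- `a ↦ (-1)^(|a| + 1) a` for `a` homogeneous of degree `|a|` -/
def bar (a : Kos R n) : Kos R n := fun s => (-1) ^ (s.card + 1) * a s

/-- The homogeneous cycles of positive degree of the Koszul complex. -/
structure PosCycle (x : Fin n → R) where
  /-- the degree -/
  deg : ℕ
  /-- the cycle -/
  val : Kos R n
  pos : 0 < deg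
  hom : IsHom val deg
  cycle : kd x val = 0

/-- The Koszul complex `K` of `R` on `x` admits a trivial Massey operation: a function `γ` on the
finite sequences of homogeneous cycles of positive degree such that
* `γ (z)` is homologous to `z`;
* `γ (z₁, …, zₚ)` is homogeneous of degree `|z₁| + … + |zₚ| + p - 1`;
* `∂ γ (z₁, …, zₚ) = ∑ i, bar (γ (z₁, …, zᵢ)) γ (zᵢ₊₁, …, zₚ)` for `p ≥ 2`.

This is Golod's condition that all Massey operations on the positive homology of `K` vanish. -/
def IsGolod (x : Fin n → R) : Prop :=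
  ∃ γ : List (PosCycle x) → Kos R n,
    (∀ z : PosCycle x, ∃ b, γ [z] - z.val = kd x b) ∧
    (∀ l : List (PosCycle x), l ≠ [] → IsHom (γ l) ((l.map PosCycle.deg).sum + l.length - 1)) ∧
    ∀ l : List (PosCycle x), 2 ≤ l.length →
      kd x (γ l) = ∑ i ∈ Finset.Ico 1 l.length, kmul (bar (γ (l.take i))) (γ (l.drop i))

end Koszul

section Typ

variable (R : Type) [CommRing R] (J : Ideal R)

/-- `Ext_R^i (R / J, R)` -/
noncomputable abbrev extJ (i : ℕ) : Type :=
  Abelian.Ext (ModuleCat.of R (R ⧸ J)) (ModuleCat.of R R) i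

/-- the least `i` with `Ext_R^i (R / J, R) ≠ 0` -/
noncomputable def depthJ : ℕ := sInf {i | Nontrivial (extJ R J i)}

/-- the length of `Ext_R^i (R / J, R)` for the least `i` such that this module is nonzero -/
noncomputable def typeJ : ℕ∞ := Module.length R (extJ R J (depthJ R J))

end Typ

section Quotients

variable {k : Type} [Field k] {n : ℕ} (I : Ideal (MvPolynomial (Fin n) k))

/-- the classes of the variables in `R = S / I` -/
noncomputable def xbar (i : Fin n) : MvPolynomial (Fin n) k ⧸ I := Ideal.Quotient.mk I (X i)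

/-- the ideal of `R = S / I` generated by the classes of the variables -/
noncomputable def mbar : Ideal (MvPolynomial (Fin n) k ⧸ I) := Ideal.span (Set.range (xbar I))

/-- the depth of `R = S / I`: the least `i` with `Ext_R^i (k, R) ≠ 0` -/
noncomputable def depthR : ℕ := depthJ (MvPolynomial (Fin n) k ⧸ I) (mbar I)

/-- the Cohen-Macaulay type of `R = S / I`: the length of `Ext_R^depth (k, R)` (which is its
dimension over `k`) -/
noncomputable def typeR : ℕ∞ := typeJ (MvPolynomial (Fin n) k ⧸ I) (mbar I)

/-- `I` is homogeneous for the standard grading of `S` -/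
def IsHomog : Prop := ∀ F ∈ I, ∀ d : ℕ, homogeneousComponent d F ∈ I

/-- `R = S / I` (with `I` homogeneous) is Cohen-Macaulay: its depth is its Krull dimension -/
def IsCMR : Prop := ((depthR I : ℕ) : WithBot ℕ∞) = ringKrullDim (MvPolynomial (Fin n) k ⧸ I)

variable (k n) in
/-- the ideal of `S` generated by the variables -/
noncomputable def maxS : Ideal (MvPolynomial (Fin n) k) := Ideal.span (Set.range X)

end Quotients

end Pool.Agent.R688.GU
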