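import Pool.Agent.R688.GU.Crit

set_option autoImplicit false

/-!
# The ring `k[x, y, z] / (x², x y, y³, y² z)`
-/

open CategoryTheory MvPolynomial

namespace Pool.Agent.R688.GU.Two

variable (k : Type) [Field k]

/-- the ideal `(x², x y, y³, y² z)` -/
noncomputable def I₂ : Ideal (MvPolynomial (Fin 3) k) :=
  Ideal.span {X 0 ^ 2, X 0 * X 1, X 1 ^ 3, X 1 ^ 2 * X 2}

/-- the quotient -/
abbrev R₂ : Type := MvPolynomial (Fin 3) k ⧸ I₂ k

variable {k}

noncomputable abbrev x : R₂ k := xbar (I₂ k) 0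
noncomputable abbrev y : R₂ k := xbar (I₂ k) 1
noncomputable abbrev z : R₂ k := xbar (I₂ k) 2

theorem xx : (x : R₂ k) * x = 0 := by
  change Ideal.Quotient.mk (I₂ k) (X 0) * Ideal.Quotient.mk (I₂ k) (X 0) = 0
  rw [← map_mul, Ideal.Quotient.eq_zero_iff_mem, ← pow_two]
  exact Ideal.subset_span (by simp)

theorem xy : (x : R₂ k) * y = 0 := by
  change Ideal.Quotient.mk (I₂ k) (X 0) * Ideal.Quotient.mk (I₂ k) (X 1) = 0
  rw [← map_mul, Ideal.Quotient.eq_zero_iff_mem]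
  exact Ideal.subset_span (by simp)

theorem yyy : (y : R₂ k) * y ^ 2 = 0 := by
  change Ideal.Quotient.mk (I₂ k) (X 1) * Ideal.Quotient.mk (I₂ k) (X 1) ^ 2 = 0
  rw [← map_pow, ← map_mul, Ideal.Quotient.eq_zero_iff_mem, ← pow_succ']
  exact Ideal.subset_span (by simp)

theorem zyy : (z : R₂ k) * y ^ 2 = 0 := by
  change Ideal.Quotient.mk (I₂ k) (X 2) * Ideal.Quotient.mk (I₂ k) (X 1) ^ 2 = 0
  rw [← map_pow, ← map_mul, Ideal.Quotient.eq_zero_iff_mem, mul_comm]
  exact Ideal.subset_span (by simp)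

theorem xyy : (x : R₂ k) * y ^ 2 = 0 := by rw [pow_two, ← mul_assoc, xy, zero_mul]

/-- polynomials in `z` -/
noncomputable def φ : Polynomial k →ₐ[k] R₂ k := Polynomial.aeval z

/-- the normal form -/
noncomputable def nf (p q s : Polynomial k) (c : k) : R₂ k :=
  φ p + x * φ q + y * φ s + algebraMap k (R₂ k) c * y ^ 2

theorem φ_X : φ (Polynomial.X : Polynomial k) = z := Polynomial.aeval_X _

/-- `y² f(z) = f(0) y²` -/
theorem yyφ (s : Polynomial k) : (y : R₂ k) ^ 2 * φ s = algebraMap k (R₂ k) (s.coeff 0) * y ^ 2 := by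
  have h : s = Polynomial.C (s.coeff 0) + Polynomial.X * s.divX := by
    rw [add_comm, Polynomial.X_mul_divX_add]
  conv_lhs => rw [h]
  rw [map_add, map_mul, φ_X, mul_add, ← mul_assoc, mul_comm ((y : R₂ k) ^ 2) z, zyy, zero_mul,
    add_zero, mul_comm]
  congr 1
  exact Polynomial.aeval_C (z : R₂ k) _

theorem x_nf (p q s : Polynomial k) (c : k) : x * nf p q s c = nf 0 p 0 0 := by
  unfold nf
  simp only [map_zero, mul_zero, zero_mul, zero_add, add_zero, mul_add]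
  rw [← mul_assoc x x, xx, ← mul_assoc x y, xy, mul_left_comm, xyy]
  simp

theorem y_nf (p q s : Polynomial k) (c : k) : y * nf p q s c = nf 0 0 p (s.coeff 0) := by
  unfold nf
  simp only [map_zero, mul_zero, zero_add, mul_add]
  rw [← mul_assoc y x, mul_comm y x, xy, ← mul_assoc y y, ← pow_two, yyφ, mul_left_comm, yyy]
  simp

theorem z_nf (p q s : Polynomial k) (c : k) :
    z * nf p q s c = nf (Polynomial.X * p) (Polynomial.X * q) (Polynomial.X * s) 0 := by
  unfold nf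
  simp only [map_zero, zero_mul, add_zero, mul_add, map_mul, φ_X]
  rw [mul_left_comm z (algebraMap k (R₂ k) c), zyy, mul_zero, add_zero, mul_left_comm z x,
    mul_left_comm z y]

theorem nf_add (p q s p' q' s' : Polynomial k) (c c' : k) :
    nf p q s c + nf p' q' s' c' = nf (p + p') (q + q') (s + s') (c + c') := by
  unfold nf
  simp only [map_add]
  ring

theorem nf_neg (p q s : Polynomial k) (c : k) : - nf p q s c = nf (-p) (-q) (-s) (-c) := by
  unfold nf
  simp only [map_neg]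
  ring

theorem exists_nf (r : R₂ k) : ∃ p q s c, r = nf p q s c := by
  obtain ⟨F, rfl⟩ := Ideal.Quotient.mk_surjective r
  induction F using MvPolynomial.induction_on with
  | C a =>
    refine ⟨Polynomial.C a, 0, 0, 0, ?_⟩
    unfold nf
    simp only [map_zero, mul_zero, zero_mul, add_zero]
    have h : φ (Polynomial.C a) = algebraMap k (R₂ k) a := Polynomial.aeval_C (z : R₂ k) a
    rw [h]
    rfl
  | add F G hF hG =>
    obtain ⟨p, q, s, c, h⟩ := hF
    obtain ⟨p', q', s', c', h'⟩ := hG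
    rw [map_add, h, h', nf_add]
    exact ⟨_, _, _, _, rfl⟩
  | mul_X F i hF =>
    obtain ⟨p, q, s, c, h⟩ := hF
    rw [map_mul, h, mul_comm]
    fin_cases i
    · exact ⟨_, _, _, _, x_nf p q s c⟩
    · exact ⟨_, _, _, _, y_nf p q s c⟩
    · exact ⟨_, _, _, _, z_nf p q s c⟩

/-- the homomorphisms out of `R₂` -/
noncomputable def hom {T : Type} [CommRing T] [Algebra k T] (a b c : T) (h1 : a ^ 2 = 0)
    (h2 : a * b = 0) (h3 : b ^ 3 = 0) (h4 : b ^ 2 * c = 0) : R₂ k →ₐ[k] T :=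
  Ideal.Quotient.liftₐ (I₂ k) (aeval ![a, b, c]) (by
    intro F hF
    have h5 : I₂ k ≤ RingHom.ker (aeval (R := k) ![a, b, c]) := by
      unfold I₂
      rw [Ideal.span_le]
      rintro _ (rfl | rfl | rfl | rfl) <;> simp [RingHom.mem_ker, h1, h2, h3, h4]
    exact h5 hF)

theorem hom_x {T : Type} [CommRing T] [Algebra k T] (a b c : T) (h1 : a ^ 2 = 0)
    (h2 : a * b = 0) (h3 : b ^ 3 = 0) (h4 : b ^ 2 * c = 0) :
    hom (k := k) a b c h1 h2 h3 h4 x = a := by
  change aeval ![a, b, c] (X 0) = a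
  simp

theorem hom_y {T : Type} [CommRing T] [Algebra k T] (a b c : T) (h1 : a ^ 2 = 0)
    (h2 : a * b = 0) (h3 : b ^ 3 = 0) (h4 : b ^ 2 * c = 0) :
    hom (k := k) a b c h1 h2 h3 h4 y = b := by
  change aeval ![a, b, c] (X 1) = b
  simp

theorem hom_z {T : Type} [CommRing T] [Algebra k T] (a b c : T) (h1 : a ^ 2 = 0)
    (h2 : a * b = 0) (h3 : b ^ 3 = 0) (h4 : b ^ 2 * c = 0) :
    hom (k := k) a b c h1 h2 h3 h4 z = c := by
  change aeval ![a, b, c] (X 2) = c
  simp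

theorem hom_φ {T : Type} [CommRing T] [Algebra k T] (a b c : T) (h1 : a ^ 2 = 0)
    (h2 : a * b = 0) (h3 : b ^ 3 = 0) (h4 : b ^ 2 * c = 0) (p : Polynomial k) :
    hom (k := k) a b c h1 h2 h3 h4 (φ p) = Polynomial.aeval c p := by
  unfold φ
  rw [← Polynomial.aeval_algHom_apply, hom_z]

theorem aeval_inl (p : Polynomial k) :
    Polynomial.aeval (TrivSqZeroExt.inl Polynomial.X : TrivSqZeroExt (Polynomial k) (Polynomial k)) p
      = TrivSqZeroExt.inl p := by
  have h : (TrivSqZeroExt.inl Polynomial.X : TrivSqZeroExt (Polynomial k) (Polynomial k)) =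
      TrivSqZeroExt.inlAlgHom k (Polynomial k) (Polynomial k) Polynomial.X := rfl
  rw [h, Polynomial.aeval_algHom_apply, Polynomial.aeval_X_left_apply]
  rfl

theorem nf_eq_zero {p q s : Polynomial k} {c : k} (h : nf p q s c = 0) :
    p = 0 ∧ q = 0 ∧ s = 0 ∧ c = 0 := by
  have e2 : (TrivSqZeroExt.inr 1 : TrivSqZeroExt (Polynomial k) (Polynomial k)) ^ 2 = 0 := by
    rw [pow_two, TrivSqZeroExt.inr_mul_inr]
  -- `y ↦ 0`
  have h1 := congrArg (hom (k := k) (T := TrivSqZeroExt (Polynomial k) (Polynomial k))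
    (TrivSqZeroExt.inr 1) 0 (TrivSqZeroExt.inl Polynomial.X) e2 (by simp) (by simp) (by simp)) h
  have h2 := congrArg (hom (k := k) (T := TrivSqZeroExt (Polynomial k) (Polynomial k))
    0 (TrivSqZeroExt.inr 1) (TrivSqZeroExt.inl Polynomial.X) (by simp) (by simp)
    (by rw [pow_succ, e2, zero_mul]) (by rw [e2, zero_mul])) h
  have h3 := congrArg (hom (k := k) (T := Polynomial k ⧸ Ideal.span {(Polynomial.X : Polynomial k) ^ 3})
    0 (Ideal.Quotient.mk _ Polynomial.X) 0 (by simp) (by simp)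
    (by rw [← map_pow]; exact Ideal.Quotient.eq_zero_iff_mem.2 (Ideal.mem_span_singleton_self _))
    (by simp)) h
  unfold nf at h1 h2 h3
  rw [map_zero] at h1 h2 h3
  simp only [map_add, map_mul, map_pow, hom_x, hom_y, hom_φ, aeval_inl, AlgHom.commutes, zero_mul,
    mul_zero, add_zero, e2, zero_pow two_ne_zero] at h1 h2 h3
  have hp : p = 0 := by simpa using congrArg TrivSqZeroExt.fst h1
  have hq : q = 0 := by simpa using congrArg TrivSqZeroExt.snd h1
  have hs : s = 0 := by simpa using congrArg TrivSqZeroExt.snd h2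
  refine ⟨hp, hq, hs, ?_⟩
  rw [hp, hs, map_zero, mul_zero, zero_add, zero_add] at h3
  have h4 : Ideal.Quotient.mk (Ideal.span {(Polynomial.X : Polynomial k) ^ 3})
      (Polynomial.C c * Polynomial.X ^ 2) = 0 := by
    rw [map_mul, map_pow]
    exact h3
  rw [Ideal.Quotient.eq_zero_iff_mem, Ideal.mem_span_singleton] at h4
  rw [Polynomial.X_pow_dvd_iff] at h4
  have h5 := h4 2 (by norm_num)
  simpa using h5

/-- the annihilator of `z` -/
theorem ann_z {r : R₂ k} (h : z * r = 0) : ∃ c, r = nf 0 0 0 c := by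
  obtain ⟨p, q, s, c, rfl⟩ := exists_nf r
  rw [z_nf] at h
  obtain ⟨h1, h2, h3, -⟩ := nf_eq_zero h
  have hX : (Polynomial.X : Polynomial k) ≠ 0 := Polynomial.X_ne_zero
  have h1 := (mul_eq_zero.1 h1).resolve_left hX
  have h2 := (mul_eq_zero.1 h2).resolve_left hX
  have h3 := (mul_eq_zero.1 h3).resolve_left hX
  exact ⟨c, by rw [h1, h2, h3]⟩

/-- the annihilator of `x` -/
theorem ann_x {r : R₂ k} (h : x * r = 0) : ∃ q s c, r = nf 0 q s c := by
  obtain ⟨p, q, s, c, rfl⟩ := exists_nf r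
  rw [x_nf] at h
  obtain ⟨-, h2, -, -⟩ := nf_eq_zero h
  exact ⟨q, s, c, by rw [h2]⟩

/-- the ideal `(x, y²)` -/
noncomputable def 𝔞 : Ideal (R₂ k) := Ideal.span {x, y ^ 2}

theorem 𝔞_sq : (𝔞 : Ideal (R₂ k)) * 𝔞 = ⊥ := by
  unfold 𝔞
  rw [Ideal.span_mul_span', eq_bot_iff, Ideal.span_le]
  rintro _ ⟨a, ha, b, hb, rfl⟩
  rcases ha with rfl | rfl <;> rcases hb with rfl | rfl
  · simp [xx]
  · simp [xyy]
  · simp [mul_comm, xyy]
  · have : (y : R₂ k) ^ 2 * y ^ 2 = 0 := by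
      rw [show (y : R₂ k) ^ 2 * y ^ 2 = y * (y * y ^ 2) by ring, yyy, mul_zero]
    simp [this]

theorem x_mem : (x : R₂ k) ∈ (𝔞 : Ideal (R₂ k)) := Ideal.subset_span (by simp)

theorem nf_mem (q : Polynomial k) (c : k) : nf 0 q 0 c ∈ (𝔞 : Ideal (R₂ k)) := by
  unfold nf
  rw [map_zero, mul_zero, zero_add, add_zero]
  exact Ideal.add_mem _ (Ideal.mul_mem_right _ _ x_mem)
    (Ideal.mul_mem_left _ _ (Ideal.subset_span (by simp)))

/-- the key relation -/
theorem key_rel {v w r : R₂ k} (h : y * v + z * w = x * r) :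
    ∃ u, v - z * u ∈ (𝔞 : Ideal (R₂ k)) ∧ w + y * u ∈ (𝔞 : Ideal (R₂ k)) := by
  obtain ⟨p₁, q₁, s₁, c₁, rfl⟩ := exists_nf v
  obtain ⟨p₂, q₂, s₂, c₂, rfl⟩ := exists_nf w
  obtain ⟨p₃, q₃, s₃, c₃, rfl⟩ := exists_nf r
  rw [y_nf, z_nf, x_nf, ← sub_eq_zero, sub_eq_add_neg, nf_neg, nf_add, nf_add] at h
  obtain ⟨h1, h2, h3, h4⟩ := nf_eq_zero h
  simp only [zero_add, add_zero, neg_zero] at h1 h3 h4
  have hX : (Polynomial.X : Polynomial k) ≠ 0 := Polynomial.X_ne_zero
  have h1 := (mul_eq_zero.1 h1).resolve_left hX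
  obtain ⟨s', hs'⟩ := Polynomial.X_dvd_iff.2 h4
  refine ⟨nf (- s₂) 0 s' 0, ?_, ?_⟩
  · rw [z_nf, sub_eq_add_neg, nf_neg, nf_add]
    have e1 : p₁ + -(Polynomial.X * -s₂) = 0 := by linear_combination h3
    have e2 : s₁ + -(Polynomial.X * s') = 0 := by rw [hs']; ring
    rw [e1, e2]
    exact nf_mem _ _
  · rw [y_nf, nf_add, h1]
    have e1 : s₂ + -s₂ = 0 := by ring
    rw [e1, zero_add]
    exact nf_mem _ _

/-- the socle -/
theorem socle_sub {r : R₂ k} (h : ∀ i, r * xbar (I₂ k) i = 0) : ∃ c, r = nf 0 0 0 c :=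
  ann_z (by rw [mul_comm]; exact h 2)

theorem x_mul_mem {a : R₂ k} (h : a ∈ (𝔞 : Ideal (R₂ k))) : x * a = 0 := by
  obtain ⟨b, c, rfl⟩ := Ideal.mem_span_pair.1 h
  linear_combination b * xx (k := k) + c * xyy (k := k)

theorem golod : IsGolod (xbar (I₂ k)) := by
  refine isGolod_three _ (𝔞 := 𝔞) 𝔞_sq (fun v h => ?_) (fun f h1 h2 h3 => ?_) (fun f h => ?_)
  · change v 0 * x + v 1 * y + v 2 * z = 0 at h
    change ∃ f : Fin 3 → R₂ k, v 0 + f 1 * z + f 2 * y ∈ 𝔞 ∧ v 1 - f 2 * x + f 0 * z ∈ 𝔞 ∧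
      v 2 - f 0 * y - f 1 * x ∈ 𝔞
    obtain ⟨u, h1, h2⟩ := key_rel (v := v 1) (w := v 2) (r := - v 0) (by linear_combination h)
    obtain ⟨c₁, d₁, h3⟩ := Ideal.mem_span_pair.1 h1
    obtain ⟨c₂, d₂, h4⟩ := Ideal.mem_span_pair.1 h2
    obtain ⟨q, s, c, h5⟩ := ann_x (r := v 0 + z * c₂) (by
      linear_combination h + y * h3 + z * h4 - c₁ * xy (k := k) - d₁ * yyy (k := k)
        - d₂ * zyy (k := k))
    refine ⟨![- u, c₂, - φ s], ?_, ?_, ?_⟩
    · change v 0 + c₂ * z + - φ s * y ∈ _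
      have h6 : v 0 + c₂ * z + - φ s * y = nf 0 q 0 c := by
        unfold nf at h5 ⊢
        rw [map_zero] at h5 ⊢
        linear_combination h5
      rw [h6]
      exact nf_mem q c
    · change v 1 - - φ s * x + - u * z ∈ _
      have h6 : v 1 - - φ s * x + - u * z = (v 1 - z * u) + φ s * x := by ring
      rw [h6]
      exact Ideal.add_mem _ h1 (Ideal.mul_mem_left _ _ x_mem)
    · change v 2 - - u * y - c₂ * x ∈ _
      have h6 : v 2 - - u * y - c₂ * x = (v 2 + y * u) - c₂ * x := by ring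
      rw [h6]
      exact Ideal.sub_mem _ h2 (Ideal.mul_mem_left _ _ x_mem)
  · change f 1 * z + f 2 * y = 0 at h1
    change f 2 * x = f 0 * z at h2
    obtain ⟨u, h4, h5⟩ := key_rel (v := f 2) (w := f 1) (r := 0) (by linear_combination h1)
    refine ⟨u, ?_, ?_, ?_⟩
    · change f 0 - u * x ∈ _
      have h7 : z * (f 0 - u * x) = 0 := by
        linear_combination x_mul_mem h4 - h2
      obtain ⟨c, hc⟩ := ann_z h7
      rw [hc]
      exact nf_mem 0 c
    · change f 1 + u * y ∈ _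
      rw [mul_comm u y]
      exact h5
    · change f 2 - u * z ∈ _
      rw [mul_comm u z]
      exact h4
  · obtain ⟨c, rfl⟩ := socle_sub h
    exact nf_mem 0 c

end Pool.Agent.R688.GU.Two
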