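import Pool.Agent.R688.GU.One2
import Pool.Agent.R688.GU.Two

set_option autoImplicit false

/-!
# The remaining properties of the two examples
-/

open MvPolynomial

namespace Pool.Agent.R688.GU

variable {k : Type} [Field k]


namespace One

theorem homog : IsHomog (I₁ k) := by
  intro F hF d
  obtain ⟨h1, h2, h3, h4, h5⟩ := hF
  have hc : c0 (homogeneousComponent d F) = if 0 = d then c0 F else 0 := by
    unfold c0
    rw [coeff_homogeneousComponent]
    simp
  have hl : ∀ i, l i (homogeneousComponent d F) = if 1 = d then l i F else 0 := by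
    intro i
    unfold l
    rw [coeff_homogeneousComponent]
    simp
  have hq : ∀ i j, q i j (homogeneousComponent d F) = if 2 = d then q i j F else 0 := by
    intro i j
    unfold q
    rw [coeff_homogeneousComponent, map_add]
    simp
  have ht : ∀ i j m, t i j m (homogeneousComponent d F) = if 3 = d then t i j m F else 0 := by
    intro i j m
    unfold t
    rw [coeff_homogeneousComponent, map_add, map_add]
    simp
  refine ⟨?_, fun i => ?_, fun i j => ?_, ?_, ?_⟩
  · rw [hc, h1]; simp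
  · rw [hl, h2]; simp
  · rw [hq, h3]; simp
  · unfold a at h4 ⊢
    rw [ht, ht]
    split_ifs
    · exact h4
    · simp
  · unfold b at h5 ⊢
    rw [ht, ht]
    split_ifs
    · exact h5
    · simp

theorem nontriv : Nontrivial ((MvPolynomial (Fin 3) k) ⧸ I₁ k) := ⟨⟨_, _, su_ne⟩⟩

theorem dim_zero : ringKrullDim ((MvPolynomial (Fin 3) k) ⧸ I₁ k) = 0 := by
  have := nontriv (k := k)
  rw [← ringKrullDimZero_iff_ringKrullDim_eq_zero, Ring.krullDimLE_zero_iff]
  intro P hP
  have hx : ∀ i, xbar (I₁ k) i ∈ P := by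
    intro i
    apply hP.mem_of_pow_mem 4
    have : xbar (I₁ k) i ^ 4 = 0 := by
      change Ideal.Quotient.mk (I₁ k) (X i) ^ 4 = 0
      rw [← map_pow]
      exact Ideal.Quotient.eq_zero_iff_mem.2 (pow_four_mem i)
    rw [this]
    exact Ideal.zero_mem _
  refine ⟨⟨hP.ne_top, fun L hL => ?_⟩⟩
  obtain ⟨r, hrL, hrP⟩ := Set.exists_of_ssubset hL
  obtain ⟨F, rfl⟩ := Ideal.Quotient.mk_surjective r
  -- `F` is a constant modulo `P`
  have h1 : Ideal.Quotient.mk (I₁ k) (F - C (c0 F)) ∈ P := by
    have h2 : F - C (c0 F) ∈ (mm : Ideal (MvPolynomial (Fin 3) k)) := by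
      apply mem_mm
      rw [c0_sub]
      have : c0 (C (c0 F) : (MvPolynomial (Fin 3) k)) = c0 F := by simp [c0]
      rw [this, sub_self]
    have h3 : (mm : Ideal (MvPolynomial (Fin 3) k)) ≤ P.comap (Ideal.Quotient.mk (I₁ k)) := by
      rw [Ideal.span_le]
      rintro _ ⟨i, rfl⟩
      exact hx i
    exact h3 h2
  have h2 : c0 F ≠ 0 := by
    intro h
    rw [h, map_zero, sub_zero] at h1
    exact hrP h1
  have h3 : Ideal.Quotient.mk (I₁ k) (C (c0 F)) ∈ L := by
    have h4 := L.sub_mem hrL (hL.le h1)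
    rwa [← map_sub, sub_sub_cancel] at h4
  rw [Ideal.eq_top_iff_one]
  have h4 := L.mul_mem_left (Ideal.Quotient.mk (I₁ k) (C (c0 F)⁻¹)) h3
  rwa [← map_mul, ← C_mul, inv_mul_cancel₀ h2, C_1, map_one] at h4

theorem isCM : IsCMR (I₁ k) := by
  unfold IsCMR
  rw [depth_zero, dim_zero]
  rfl

end One

namespace Two

theorem type_le : typeR (I₂ k) ≤ 1 := by
  have h := typeR_le (I := I₂ k) (m := 1) ![y ^ 2] (by
      intro j i
      fin_cases j
      change (y : R₂ k) ^ 2 * xbar (I₂ k) i = 0
      fin_cases i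
      · exact (mul_comm _ _).trans xyy
      · exact (mul_comm _ _).trans yyy
      · exact (mul_comm _ _).trans zyy) ⟨0, by
      change (y : R₂ k) ^ 2 ≠ 0
      intro h
      have h1 : (y : R₂ k) ^ 2 = nf 0 0 0 1 := by unfold nf; simp
      rw [h1] at h
      exact one_ne_zero (nf_eq_zero h).2.2.2⟩ (by
      intro r hr
      obtain ⟨c, rfl⟩ := socle_sub hr
      refine ⟨![algebraMap k _ c], ?_⟩
      unfold nf
      simp)
  exact_mod_cast h

theorem height_ge : 2 ≤ (I₂ k).height := by
  apply le_height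
  intro P hP hle
  have h0 : (X 0 : (MvPolynomial (Fin 3) k)) ∈ P := by
    apply hP.mem_of_pow_mem 2
    apply hle
    unfold I₂
    exact Ideal.subset_span (by simp)
  have h1 : (X 1 : (MvPolynomial (Fin 3) k)) ∈ P := by
    apply hP.mem_of_pow_mem 3
    apply hle
    unfold I₂
    exact Ideal.subset_span (by simp)
  exact two_le P h0 h1

attribute [local instance] MvPolynomial.gradedAlgebra in
theorem homog : IsHomog (I₂ k) := by
  have h : (I₂ k).IsHomogeneous (homogeneousSubmodule (Fin 3) k) := by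
    unfold I₂
    apply Ideal.homogeneous_span
    rintro _ (rfl | rfl | rfl | rfl)
    · exact ⟨2, (isHomogeneous_X k 0).pow 2⟩
    · exact ⟨2, (isHomogeneous_X k 0).mul (isHomogeneous_X k 1)⟩
    · exact ⟨3, (isHomogeneous_X k 1).pow 3⟩
    · exact ⟨3, ((isHomogeneous_X k 1).pow 2).mul (isHomogeneous_X k 2)⟩
  intro F hF d
  have h1 := h d hF
  have h2 := decomposition.decompose'_apply F d
  rw [← h2]
  exact h1

theorem le_sq : I₂ k ≤ (Ideal.span (Set.range X)) ^ 2 := by
  have hX : ∀ i, (X i : (MvPolynomial (Fin 3) k)) ∈ (Ideal.span (Set.range X) : Ideal (MvPolynomial (Fin 3) k)) :=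
    fun i => Ideal.subset_span ⟨i, rfl⟩
  unfold I₂
  rw [Ideal.span_le]
  rintro _ (rfl | rfl | rfl | rfl)
  · exact Ideal.pow_mem_pow (hX 0) 2
  · rw [pow_two]; exact Ideal.mul_mem_mul (hX 0) (hX 1)
  · exact Ideal.pow_le_pow_right (by norm_num) (Ideal.pow_mem_pow (hX 1) 3)
  · exact Ideal.mul_mem_right _ _ (Ideal.pow_mem_pow (hX 1) 2)

end Two

end Pool.Agent.R688.GU
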