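import Pool.Agent.R688.GU.Defs

set_option autoImplicit false

/-!
# Heights in `k[x, y, z]`
-/

open MvPolynomial

namespace Pool.Agent.R688.GU

variable {k : Type} [Field k]


/-- the evaluation at `x = y = 0` -/
noncomputable def ev : (MvPolynomial (Fin 3) k) →ₐ[k] Polynomial k := aeval ![0, 0, Polynomial.X]

theorem ev0 : ev (X 0 : (MvPolynomial (Fin 3) k)) = 0 := by simp [ev]
theorem ev1 : ev (X 1 : (MvPolynomial (Fin 3) k)) = 0 := by simp [ev]
theorem ev2 : ev (X 2 : (MvPolynomial (Fin 3) k)) = Polynomial.X := by simp [ev]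

theorem ev_sub (P : Ideal (MvPolynomial (Fin 3) k)) (h0 : X 0 ∈ P) (h1 : X 1 ∈ P) (f : (MvPolynomial (Fin 3) k)) :
    f - Polynomial.aeval (X 2 : (MvPolynomial (Fin 3) k)) (ev f) ∈ P := by
  induction f using MvPolynomial.induction_on with
  | C a =>
    have h2 : ev (C a : (MvPolynomial (Fin 3) k)) = Polynomial.C a := by
      unfold ev; rw [algHom_C]; rfl
    rw [h2, Polynomial.aeval_C]
    have h3 : algebraMap k (MvPolynomial (Fin 3) k) a = C a := rfl
    rw [h3, sub_self]
    exact Ideal.zero_mem _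
  | add f g hf hg =>
    rw [map_add, map_add, add_sub_add_comm]
    exact Ideal.add_mem _ hf hg
  | mul_X f i hf =>
    rw [map_mul, map_mul]
    fin_cases i
    · simp only [Fin.zero_eta, ev0, map_zero, mul_zero, sub_zero]
      exact Ideal.mul_mem_left _ _ h0
    · simp only [Fin.mk_one, ev1, map_zero, mul_zero, sub_zero]
      exact Ideal.mul_mem_left _ _ h1
    · simp only [Fin.reduceFinMk, ev2, Polynomial.aeval_X]
      rw [← sub_mul]
      exact Ideal.mul_mem_right _ _ hf

instance prime_X0 : (Ideal.span {(X 0 : (MvPolynomial (Fin 3) k))}).IsPrime :=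
  (Ideal.span_singleton_prime (X_ne_zero 0)).2 X_prime

theorem bot_lt : (⊥ : Ideal (MvPolynomial (Fin 3) k)) < Ideal.span {(X 0 : (MvPolynomial (Fin 3) k))} := by
  rw [bot_lt_iff_ne_bot]
  intro h
  rw [Ideal.span_singleton_eq_bot] at h
  exact X_ne_zero 0 h

theorem X1_notMem : (X 1 : (MvPolynomial (Fin 3) k)) ∉ Ideal.span {(X 0 : (MvPolynomial (Fin 3) k))} := by
  rw [Ideal.mem_span_singleton]
  intro h
  have h1 := map_dvd (aeval (R := k) ![(0 : Polynomial k), 1, 0]) h
  simp at h1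

theorem two_le (P : Ideal (MvPolynomial (Fin 3) k)) [P.IsPrime] (h0 : X 0 ∈ P) (h1 : X 1 ∈ P) : 2 ≤ P.height := by
  have a1 := Ideal.height_add_one_le_of_lt_of_isPrime (bot_lt (k := k))
  have hlt : Ideal.span {(X 0 : (MvPolynomial (Fin 3) k))} < P := by
    refine lt_of_le_of_ne ((Ideal.span_singleton_le_iff_mem _).2 h0) ?_
    rintro rfl
    exact X1_notMem h1
  have a2 := Ideal.height_add_one_le_of_lt_of_isPrime hlt
  calc (2 : ℕ∞) = 0 + 1 + 1 := by norm_num
    _ ≤ (⊥ : Ideal (MvPolynomial (Fin 3) k)).height + 1 + 1 := by gcongr; simp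
    _ ≤ (Ideal.span {(X 0 : (MvPolynomial (Fin 3) k))}).height + 1 := by gcongr
    _ ≤ P.height := a2

theorem three_le (P : Ideal (MvPolynomial (Fin 3) k)) [P.IsPrime] (h0 : X 0 ∈ P) (h1 : X 1 ∈ P) (h2 : X 2 ∈ P) :
    3 ≤ P.height := by
  have hprime : (RingHom.ker (ev (k := k))).IsPrime := RingHom.ker_isPrime _
  have hle : RingHom.ker (ev (k := k)) ≤ P := by
    intro f hf
    have h3 := ev_sub P h0 h1 f
    rw [show ev f = 0 from hf, map_zero, sub_zero] at h3
    exact h3
  have hlt : RingHom.ker (ev (k := k)) < P := by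
    refine lt_of_le_of_ne hle ?_
    intro h
    rw [← h] at h2
    have h3 : ev (X 2 : (MvPolynomial (Fin 3) k)) = 0 := h2
    rw [ev2] at h3
    exact Polynomial.X_ne_zero h3
  have a1 := two_le (RingHom.ker (ev (k := k))) ev0 ev1
  have a2 := Ideal.height_add_one_le_of_lt_of_isPrime hlt
  calc (3 : ℕ∞) = 2 + 1 := by norm_num
    _ ≤ (RingHom.ker (ev (k := k))).height + 1 := by gcongr
    _ ≤ P.height := a2

theorem le_height (I : Ideal (MvPolynomial (Fin 3) k)) (m : ℕ∞) (h : ∀ P : Ideal (MvPolynomial (Fin 3) k), P.IsPrime → I ≤ P → m ≤ P.height) :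
    m ≤ I.height := by
  rw [Ideal.height_eq_inf_minimalPrimes]
  exact le_iInf₂ fun P hP => h P hP.1.1 hP.1.2

end Pool.Agent.R688.GU
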