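import Pool.Agent.R688.GU.Defs

set_option autoImplicit false
set_option backward.isDefEq.respectTransparency.types true

/-!
# Depth zero and type
-/

open CategoryTheory MvPolynomial

namespace Pool.Agent.R688.GU

section generic

variable {R : Type} [CommRing R] {J : Ideal R}

/-- the homomorphism `R / J → M` given by an element killed by `J` -/
noncomputable def socHom {M : Type} [AddCommGroup M] [Module R M] {r : M}
    (hr : ∀ j ∈ J, j • r = 0) : (R ⧸ J) →ₗ[R] M :=
  Submodule.liftQ J (LinearMap.toSpanSingleton R M r) (fun j hj => hr j hj)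

theorem socHom_mk {M : Type} [AddCommGroup M] [Module R M] {r : M}
    (hr : ∀ j ∈ J, j • r = 0) (a : R) : socHom hr (Ideal.Quotient.mk J a) = a • r := rfl

theorem hom_ext' {M : Type} [AddCommGroup M] [Module R M] {f g : (R ⧸ J) →ₗ[R] M}
    (h : f (Ideal.Quotient.mk J 1) = g (Ideal.Quotient.mk J 1)) : f = g := by
  ext
  exact h

theorem length_le_one {k : Type} [Field k] [Algebra k R]
    (hs : ∀ r : R, ∃ a : k, r - algebraMap k R a ∈ J) : Module.length R (R ⧸ J) ≤ 1 := by
  by_cases hJ : J = ⊤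
  · have : Subsingleton (R ⧸ J) := Ideal.Quotient.subsingleton_iff.2 hJ
    rw [Module.length_eq_zero]
    simp
  · apply le_of_eq
    rw [Module.length_eq_one_iff, isSimpleModule_iff_isCoatom, ← Ideal.isMaximal_def]
    refine ⟨⟨hJ, fun L hL => ?_⟩⟩
    obtain ⟨r, hrL, hrJ⟩ := Set.exists_of_ssubset hL
    obtain ⟨a, ha⟩ := hs r
    have ha0 : a ≠ 0 := by
      rintro rfl
      rw [map_zero, sub_zero] at ha
      exact hrJ ha
    have h1 : algebraMap k R a ∈ L := by
      have h2 := L.sub_mem hrL (hL.le ha)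
      rwa [sub_sub_cancel] at h2
    rw [Ideal.eq_top_iff_one]
    have h2 := L.mul_mem_left (algebraMap k R a⁻¹) h1
    rwa [← map_mul, inv_mul_cancel₀ ha0, map_one] at h2

theorem length_hom_le (h1 : Module.length R (R ⧸ J) ≤ 1) {m : ℕ} (u : Fin m → R)
    (hu : ∀ i, ∀ j ∈ J, j • u i = 0)
    (hs : ∀ r : R, (∀ j ∈ J, j • r = 0) → ∃ c : Fin m → R, r = ∑ i, c i * u i) :
    Module.length R ((R ⧸ J) →ₗ[R] R) ≤ m := by
  have hu' : ∀ i, ∀ j ∈ J, j • socHom (hu i) = 0 := by
    intro i j hj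
    apply hom_ext'
    change j • socHom (hu i) (Ideal.Quotient.mk J 1) = 0
    rw [socHom_mk, one_smul, hu i j hj]
  let θ : (Fin m → R ⧸ J) →ₗ[R] ((R ⧸ J) →ₗ[R] R) :=
    ∑ i, (socHom (hu' i)).comp (LinearMap.proj i)
  have hθ : Function.Surjective θ := by
    intro f
    have h2 : ∀ j ∈ J, j • f (Ideal.Quotient.mk J 1) = 0 := by
      intro j hj
      rw [← map_smul]
      have h3 : j • (Ideal.Quotient.mk J 1) = 0 := by
        rw [← Ideal.Quotient.eq_zero_iff_mem.2 hj]
        change Ideal.Quotient.mk J (j * 1) = _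
        rw [mul_one]
      rw [h3, map_zero]
    obtain ⟨c, hc⟩ := hs _ h2
    refine ⟨fun i => Ideal.Quotient.mk _ (c i), ?_⟩
    apply hom_ext'
    rw [hc]
    simp only [θ, LinearMap.sum_apply, LinearMap.comp_apply, LinearMap.proj_apply, socHom_mk,
      LinearMap.smul_apply, one_mul, smul_eq_mul]
  calc Module.length R _ ≤ Module.length R (Fin m → R ⧸ J) :=
        Module.length_le_of_surjective θ hθ
    _ = m * Module.length R (R ⧸ J) := by
        rw [Module.length_pi]
        simp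
    _ ≤ m * 1 := by
        gcongr
    _ = m := mul_one _

end generic

section generic2

variable {R : Type} [CommRing R] {J : Ideal R}

/-- `Ext⁰ (R / J, R) = Hom (R / J, R)` -/
noncomputable def ext0 : extJ R J 0 ≃ₗ[R] ((R ⧸ J) →ₗ[R] R) :=
  (Abelian.Ext.linearEquiv₀ (R := R)).trans ModuleCat.homLinearEquiv

theorem depthJ_eq_zero {r : R} (hr : ∀ j ∈ J, j • r = 0) (h0 : r ≠ 0) : depthJ R J = 0 := by
  unfold depthJ
  rw [Nat.sInf_eq_zero]
  left
  change Nontrivial (extJ R J 0)
  rw [(ext0 (J := J)).toEquiv.nontrivial_congr]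
  refine ⟨⟨socHom hr, 0, fun h => h0 ?_⟩⟩
  have h1 := socHom_mk hr 1
  rw [h, one_smul] at h1
  exact h1.symm

theorem typeJ_le (h1 : Module.length R (R ⧸ J) ≤ 1) {m : ℕ} (u : Fin m → R)
    (hu : ∀ i, ∀ j ∈ J, j • u i = 0) (h0 : ∃ i, u i ≠ 0)
    (hs : ∀ r : R, (∀ j ∈ J, j • r = 0) → ∃ c : Fin m → R, r = ∑ i, c i * u i) :
    typeJ R J ≤ m := by
  obtain ⟨j, hj⟩ := h0
  unfold typeJ
  rw [depthJ_eq_zero (hu j) hj, ext0.length_eq]
  exact length_hom_le h1 u hu hs

end generic2

variable {k : Type} [Field k] {n : ℕ} {I : Ideal (MvPolynomial (Fin n) k)}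

theorem killed_iff (r : MvPolynomial (Fin n) k ⧸ I) :
    (∀ j ∈ mbar I, j • r = 0) ↔ ∀ i, r * xbar I i = 0 := by
  constructor
  · intro h i
    rw [mul_comm]
    exact h _ (Ideal.subset_span ⟨i, rfl⟩)
  · intro h j hj
    unfold mbar at hj
    induction hj using Submodule.span_induction with
    | mem w hw =>
      obtain ⟨i, rfl⟩ := hw
      rw [smul_eq_mul, mul_comm]
      exact h i
    | zero => exact zero_mul r
    | add a b _ _ ha hb =>
      rw [smul_eq_mul] at ha hb ⊢
      rw [add_mul, ha, hb, add_zero]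
    | smul c a _ ha =>
      rw [smul_eq_mul] at ha ⊢
      rw [smul_eq_mul, mul_assoc, ha, mul_zero]

theorem depthR_eq_zero {r : MvPolynomial (Fin n) k ⧸ I} (hr : ∀ i, r * xbar I i = 0)
    (h0 : r ≠ 0) : depthR I = 0 := depthJ_eq_zero ((killed_iff r).2 hr) h0

/-- the residue field has length at most one -/
theorem length_resField :
    Module.length (MvPolynomial (Fin n) k ⧸ I) ((MvPolynomial (Fin n) k ⧸ I) ⧸ mbar I) ≤ 1 := by
  apply length_le_one (k := k)
  intro r
  obtain ⟨F, rfl⟩ := Ideal.Quotient.mk_surjective r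
  induction F using MvPolynomial.induction_on with
  | C a => exact ⟨a, by
      have : algebraMap k (MvPolynomial (Fin n) k ⧸ I) a = Ideal.Quotient.mk I (C a) := rfl
      rw [this, sub_self]
      exact Ideal.zero_mem _⟩
  | add F G hF hG =>
    obtain ⟨a, ha⟩ := hF
    obtain ⟨b, hb⟩ := hG
    refine ⟨a + b, ?_⟩
    rw [map_add, map_add, add_sub_add_comm]
    exact Ideal.add_mem _ ha hb
  | mul_X F i _ =>
    refine ⟨0, ?_⟩
    rw [map_mul, map_zero, sub_zero]
    exact Ideal.mul_mem_left _ _ (Ideal.subset_span ⟨i, rfl⟩)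

/-- bound for the type -/
theorem typeR_le {m : ℕ} (u : Fin m → MvPolynomial (Fin n) k ⧸ I)
    (hu : ∀ j i, u j * xbar I i = 0) (h0 : ∃ j, u j ≠ 0)
    (hs : ∀ r : MvPolynomial (Fin n) k ⧸ I, (∀ i, r * xbar I i = 0) →
      ∃ c : Fin m → MvPolynomial (Fin n) k ⧸ I, r = ∑ j, c j * u j) : typeR I ≤ m :=
  typeJ_le length_resField u (fun i => (killed_iff _).2 (hu i)) h0
    (fun r hr => hs r ((killed_iff _).1 hr))

end Pool.Agent.R688.GU
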