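import Pool.Agent.R688.GU.Crit
import Pool.Agent.R688.GU.Typ
import Pool.Agent.R688.GU.Hgt

set_option autoImplicit false

/-!
# A level algebra with Hilbert function `(1, 3, 6, 2)`
-/

open MvPolynomial

namespace Pool.Agent.R688.GU.One

variable {k : Type} [Field k]


/-- constant coefficient -/
noncomputable def c0 (F : (MvPolynomial (Fin 3) k)) : k := coeff 0 F
/-- linear coefficients -/
noncomputable def l (i : Fin 3) (F : (MvPolynomial (Fin 3) k)) : k := coeff (Finsupp.single i 1) F
/-- quadratic coefficients -/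
noncomputable def q (i j : Fin 3) (F : (MvPolynomial (Fin 3) k)) : k := coeff (Finsupp.single i 1 + Finsupp.single j 1) F
/-- cubic coefficients -/
noncomputable def t (i j m : Fin 3) (F : (MvPolynomial (Fin 3) k)) : k :=
  coeff (Finsupp.single i 1 + (Finsupp.single j 1 + Finsupp.single m 1)) F

theorem c0_add (F G : (MvPolynomial (Fin 3) k)) : c0 (F + G) = c0 F + c0 G := coeff_add _ _ _
theorem l_add (i : Fin 3) (F G : (MvPolynomial (Fin 3) k)) : l i (F + G) = l i F + l i G := coeff_add _ _ _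
theorem q_add (i j : Fin 3) (F G : (MvPolynomial (Fin 3) k)) : q i j (F + G) = q i j F + q i j G := coeff_add _ _ _
theorem t_add (i j m : Fin 3) (F G : (MvPolynomial (Fin 3) k)) : t i j m (F + G) = t i j m F + t i j m G :=
  coeff_add _ _ _
theorem c0_sub (F G : (MvPolynomial (Fin 3) k)) : c0 (F - G) = c0 F - c0 G := coeff_sub _ _ _ _
theorem l_sub (i : Fin 3) (F G : (MvPolynomial (Fin 3) k)) : l i (F - G) = l i F - l i G := coeff_sub _ _ _ _
theorem q_sub (i j : Fin 3) (F G : (MvPolynomial (Fin 3) k)) : q i j (F - G) = q i j F - q i j G := coeff_sub _ _ _ _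
theorem t_sub (i j m : Fin 3) (F G : (MvPolynomial (Fin 3) k)) : t i j m (F - G) = t i j m F - t i j m G :=
  coeff_sub _ _ _ _
theorem c0_C (a : k) (F : (MvPolynomial (Fin 3) k)) : c0 (C a * F) = a * c0 F := coeff_C_mul _ _ _
theorem l_C (i : Fin 3) (a : k) (F : (MvPolynomial (Fin 3) k)) : l i (C a * F) = a * l i F := coeff_C_mul _ _ _
theorem q_C (i j : Fin 3) (a : k) (F : (MvPolynomial (Fin 3) k)) : q i j (C a * F) = a * q i j F := coeff_C_mul _ _ _
theorem t_C (i j m : Fin 3) (a : k) (F : (MvPolynomial (Fin 3) k)) : t i j m (C a * F) = a * t i j m F :=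
  coeff_C_mul _ _ _
theorem c0_one : c0 (1 : (MvPolynomial (Fin 3) k)) = 1 := by simp [c0]
theorem l_one (i : Fin 3) : l i (1 : (MvPolynomial (Fin 3) k)) = 0 := by
  unfold l
  rw [coeff_one, if_neg]
  intro h
  have := DFunLike.congr_fun h i
  simp at this
theorem q_one (i j : Fin 3) : q i j (1 : (MvPolynomial (Fin 3) k)) = 0 := by
  unfold q
  rw [coeff_one, if_neg]
  intro h
  have := DFunLike.congr_fun h i
  simp at this
  omega
theorem q_swap (i j : Fin 3) (F : (MvPolynomial (Fin 3) k)) : q i j F = q j i F := by unfold q; rw [add_comm]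
theorem c0_X (i : Fin 3) (F : (MvPolynomial (Fin 3) k)) : c0 (X i * F) = 0 := by
  unfold c0
  rw [coeff_X_mul', if_neg]
  simp
theorem l_X (i j : Fin 3) (F : (MvPolynomial (Fin 3) k)) : l j (X i * F) = if i = j then c0 F else 0 := by
  unfold l c0
  by_cases h : i = j
  · subst h
    have := coeff_X_mul (0 : Fin 3 →₀ ℕ) i F
    rw [add_zero] at this
    rw [this, if_pos rfl]
  · rw [coeff_X_mul', if_neg, if_neg h]
    rw [Finsupp.mem_support_iff, not_not, Finsupp.single_apply, if_neg (fun h' => h h'.symm)]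
theorem q_X (i j m : Fin 3) (F : (MvPolynomial (Fin 3) k)) :
    q j m (X i * F) = if i = j then l m F else if i = m then l j F else 0 := by
  unfold q l
  by_cases h : i = j
  · subst h
    rw [coeff_X_mul, if_pos rfl]
  · rw [if_neg h]
    by_cases h2 : i = m
    · subst h2
      rw [add_comm, coeff_X_mul, if_pos rfl]
    · rw [coeff_X_mul', if_neg, if_neg h2]
      rw [Finsupp.mem_support_iff, not_not, Finsupp.add_apply, Finsupp.single_apply,
        Finsupp.single_apply, if_neg (fun h' => h h'.symm), if_neg (fun h' => h2 h'.symm),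
        add_zero]
theorem t_X (i j m n : Fin 3) (F : (MvPolynomial (Fin 3) k)) :
    t j m n (X i * F) = if i = j then q m n F else if i = m then q j n F else
      if i = n then q j m F else 0 := by
  unfold t q
  by_cases h : i = j
  · subst h
    rw [coeff_X_mul, if_pos rfl]
  · rw [if_neg h]
    by_cases h2 : i = m
    · subst h2
      rw [add_left_comm, coeff_X_mul, if_pos rfl]
    · rw [if_neg h2]
      by_cases h3 : i = n
      · subst h3
        rw [← add_assoc, add_comm, coeff_X_mul, if_pos rfl]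
      · rw [coeff_X_mul', if_neg, if_neg h3]
        rw [Finsupp.mem_support_iff, not_not, Finsupp.add_apply, Finsupp.add_apply,
          Finsupp.single_apply, Finsupp.single_apply, Finsupp.single_apply,
          if_neg (fun h' => h h'.symm), if_neg (fun h' => h2 h'.symm),
          if_neg (fun h' => h3 h'.symm), add_zero, add_zero]

/-- the coefficient of the first socle element -/
noncomputable def a (F : (MvPolynomial (Fin 3) k)) : k := t 0 0 0 F + t 1 1 2 F
/-- the coefficient of the second socle element -/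
noncomputable def b (F : (MvPolynomial (Fin 3) k)) : k := t 0 2 2 F + t 0 1 1 F

theorem a_add (F G : (MvPolynomial (Fin 3) k)) : a (F + G) = a F + a G := by unfold a; rw [t_add, t_add]; ring
theorem b_add (F G : (MvPolynomial (Fin 3) k)) : b (F + G) = b F + b G := by unfold b; rw [t_add, t_add]; ring
theorem a_sub (F G : (MvPolynomial (Fin 3) k)) : a (F - G) = a F - a G := by unfold a; rw [t_sub, t_sub]; ring
theorem b_sub (F G : (MvPolynomial (Fin 3) k)) : b (F - G) = b F - b G := by unfold b; rw [t_sub, t_sub]; ring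
theorem a_C (c : k) (F : (MvPolynomial (Fin 3) k)) : a (C c * F) = c * a F := by unfold a; rw [t_C, t_C]; ring
theorem b_C (c : k) (F : (MvPolynomial (Fin 3) k)) : b (C c * F) = c * b F := by unfold b; rw [t_C, t_C]; ring
theorem a_X (i : Fin 3) (F : (MvPolynomial (Fin 3) k)) :
    a (X i * F) = if i = 0 then q 0 0 F else if i = 1 then q 1 2 F else q 1 1 F := by
  unfold a; rw [t_X, t_X]; fin_cases i <;> simp
theorem b_X (i : Fin 3) (F : (MvPolynomial (Fin 3) k)) :
    b (X i * F) = if i = 0 then q 2 2 F + q 1 1 F else if i = 1 then q 0 1 F else q 0 2 F := by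
  unfold b; rw [t_X, t_X]; fin_cases i <;> simp

/-- membership in the ideal -/
def InI (F : (MvPolynomial (Fin 3) k)) : Prop := c0 F = 0 ∧ (∀ i, l i F = 0) ∧ (∀ i j, q i j F = 0) ∧ a F = 0 ∧ b F = 0

theorem InI.add {F G : (MvPolynomial (Fin 3) k)} (hF : InI F) (hG : InI G) : InI (F + G) := by
  obtain ⟨h1, h2, h3, h4, h5⟩ := hF
  obtain ⟨g1, g2, g3, g4, g5⟩ := hG
  refine ⟨?_, fun i => ?_, fun i j => ?_, ?_, ?_⟩
  · rw [c0_add, h1, g1, add_zero]
  · rw [l_add, h2, g2, add_zero]
  · rw [q_add, h3, g3, add_zero]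
  · rw [a_add, h4, g4, add_zero]
  · rw [b_add, h5, g5, add_zero]

theorem InI.C {F : (MvPolynomial (Fin 3) k)} (hF : InI F) (c : k) : InI (C c * F) := by
  obtain ⟨h1, h2, h3, h4, h5⟩ := hF
  refine ⟨?_, fun i => ?_, fun i j => ?_, ?_, ?_⟩
  · rw [c0_C, h1, mul_zero]
  · rw [l_C, h2, mul_zero]
  · rw [q_C, h3, mul_zero]
  · rw [a_C, h4, mul_zero]
  · rw [b_C, h5, mul_zero]

theorem inI_X {F : (MvPolynomial (Fin 3) k)} (h1 : c0 F = 0) (h2 : ∀ i, l i F = 0) (h3 : ∀ i j, q i j F = 0) (i : Fin 3) :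
    InI (X i * F) := by
  refine ⟨c0_X _ _, fun j => ?_, fun j m => ?_, ?_, ?_⟩
  · rw [l_X, h1]; simp
  · rw [q_X, h2, h2]; simp
  · rw [a_X, h3, h3, h3]; simp
  · rw [b_X, h3, h3, h3, h3]; simp

theorem InI.X {F : (MvPolynomial (Fin 3) k)} (hF : InI F) (i : Fin 3) : InI (X i * F) := inI_X hF.1 hF.2.1 hF.2.2.1 i

theorem InI.mul {F : (MvPolynomial (Fin 3) k)} (hF : InI F) (G : (MvPolynomial (Fin 3) k)) : InI (G * F) := by
  induction G using MvPolynomial.induction_on with
  | C c => exact hF.C c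
  | add G H hG hH => rw [add_mul]; exact hG.add hH
  | mul_X G i hG =>
    rw [mul_comm G, mul_assoc]
    exact hG.X i

variable (k) in
/-- the ideal -/
noncomputable def I₁ : Ideal (MvPolynomial (Fin 3) k) where
  carrier := {F | InI F}
  add_mem' := InI.add
  zero_mem' := ⟨coeff_zero _, fun _ => coeff_zero _, fun _ _ => coeff_zero _, by
    unfold a t; rw [coeff_zero, coeff_zero, add_zero], by
    unfold b t; rw [coeff_zero, coeff_zero, add_zero]⟩
  smul_mem' := fun G _ hF => hF.mul G

theorem mem_I₁ {F : (MvPolynomial (Fin 3) k)} : F ∈ I₁ k ↔ InI F := Iff.rfl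

/-- the ideal `(x, y, z)` -/
noncomputable abbrev mm : Ideal (MvPolynomial (Fin 3) k) := Ideal.span (Set.range X)

theorem X_mem (i : Fin 3) : (X i : (MvPolynomial (Fin 3) k)) ∈ (mm : Ideal (MvPolynomial (Fin 3) k)) := Ideal.subset_span ⟨i, rfl⟩

theorem mem_mm {F : (MvPolynomial (Fin 3) k)} (h : c0 F = 0) : F ∈ (mm : Ideal (MvPolynomial (Fin 3) k)) := by
  have key : ∀ F : (MvPolynomial (Fin 3) k), F - C (c0 F) ∈ (mm : Ideal (MvPolynomial (Fin 3) k)) := by
    intro F
    induction F using MvPolynomial.induction_on with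
    | C c =>
      have : c0 (C c : (MvPolynomial (Fin 3) k)) = c := by simp [c0]
      rw [this, sub_self]
      exact Ideal.zero_mem _
    | add F G hF hG => 
      rw [c0_add, map_add, add_sub_add_comm]
      exact Ideal.add_mem _ hF hG
    | mul_X F i _ =>
      rw [mul_comm, c0_X, map_zero, sub_zero]
      exact Ideal.mul_mem_right _ _ (X_mem i)
  have := key F
  rwa [h, map_zero, sub_zero] at this

theorem mem_mm_sq {F : (MvPolynomial (Fin 3) k)} (h : c0 F = 0) (h' : ∀ i, l i F = 0) : F ∈ (mm : Ideal (MvPolynomial (Fin 3) k)) ^ 2 := by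
  have key : ∀ F : (MvPolynomial (Fin 3) k), F - (C (c0 F) + ∑ i, C (l i F) * X i) ∈ (mm : Ideal (MvPolynomial (Fin 3) k)) ^ 2 := by
    intro F
    induction F using MvPolynomial.induction_on with
    | C c =>
      have h1 : c0 (C c : (MvPolynomial (Fin 3) k)) = c := by simp [c0]
      have h2 : ∀ i, l i (C c : (MvPolynomial (Fin 3) k)) = 0 := by
        intro i
        have := l_C i c (1 : (MvPolynomial (Fin 3) k))
        rwa [mul_one, l_one, mul_zero] at this
      simp only [h1, h2, map_zero, zero_mul, Finset.sum_const_zero, add_zero, sub_self]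
      exact Ideal.zero_mem _
    | add F G hF hG => 
      have h1 : F + G - (C (c0 (F + G)) + ∑ i, C (l i (F + G)) * X i) =
          (F - (C (c0 F) + ∑ i, C (l i F) * X i)) + (G - (C (c0 G) + ∑ i, C (l i G) * X i)) := by
        simp only [c0_add, l_add, map_add, add_mul, Finset.sum_add_distrib]
        ring
      rw [h1]
      exact Ideal.add_mem _ hF hG
    | mul_X F j _ =>
      have h1 : F * X j - (C (c0 (F * X j)) + ∑ i, C (l i (F * X j)) * X i) =
          (F - C (c0 F)) * X j := by
        rw [mul_comm F, c0_X, map_zero, zero_add]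
        simp only [l_X]
        rw [Finset.sum_eq_single j]
        · rw [if_pos rfl]; ring
        · intro i _ hi
          rw [if_neg (fun h => hi h.symm), map_zero, zero_mul]
        · intro h; exact absurd (Finset.mem_univ _) h
      rw [h1, pow_two]
      refine Ideal.mul_mem_mul (mem_mm ?_) (X_mem j)
      rw [c0_sub]
      have : c0 (C (c0 F) : (MvPolynomial (Fin 3) k)) = c0 F := by simp [c0]
      rw [this, sub_self]
  have := key F
  simpa [h, h'] using this

theorem I₁_le : I₁ k ≤ (mm : Ideal (MvPolynomial (Fin 3) k)) ^ 2 := fun _ hF => mem_mm_sq hF.1 hF.2.1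

theorem mul_mem_I₁ {F G : (MvPolynomial (Fin 3) k)} (hF : F ∈ (mm : Ideal (MvPolynomial (Fin 3) k)) ^ 2) (h : c0 G = 0) (h' : ∀ i, l i G = 0) :
    F * G ∈ I₁ k := by
  have h1 : ∀ i j, X i * (X j * G) ∈ I₁ k := by
    intro i j
    apply inI_X (c0_X _ _)
    · intro m; rw [l_X, h]; simp
    · intro m n; rw [q_X, h', h']; simp
  rw [pow_two] at hF
  unfold mm at hF
  rw [Ideal.span_mul_span'] at hF
  induction hF using Submodule.span_induction with
  | mem w hw =>
    obtain ⟨_, ⟨i, rfl⟩, _, ⟨j, rfl⟩, rfl⟩ := hw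
    change X i * X j * G ∈ _
    rw [mul_assoc]
    exact h1 i j
  | zero => rw [zero_mul]; exact Ideal.zero_mem _
  | add c d _ _ hc hd => rw [add_mul]; exact Ideal.add_mem _ hc hd
  | smul c d _ hd => 
    rw [smul_eq_mul, mul_assoc]
    exact Ideal.mul_mem_left _ _ hd

theorem coeff_of_mem_sq {F : (MvPolynomial (Fin 3) k)} (hF : F ∈ (mm : Ideal (MvPolynomial (Fin 3) k)) ^ 2) : c0 F = 0 ∧ ∀ i, l i F = 0 := by
  rw [pow_two] at hF
  unfold mm at hF
  rw [Ideal.span_mul_span'] at hF
  have h1 : ∀ (G F : (MvPolynomial (Fin 3) k)), (c0 F = 0 ∧ ∀ i, l i F = 0) → c0 (G * F) = 0 ∧ ∀ i, l i (G * F) = 0 := by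
    intro G F hF
    induction G using MvPolynomial.induction_on with
    | C c => exact ⟨by rw [c0_C, hF.1, mul_zero], fun i => by rw [l_C, hF.2, mul_zero]⟩
    | add G H hG hH =>
      rw [add_mul]
      exact ⟨by rw [c0_add, hG.1, hH.1, add_zero], fun i => by rw [l_add, hG.2, hH.2, add_zero]⟩
    | mul_X G i hG =>
      rw [mul_comm G, mul_assoc]
      exact ⟨c0_X _ _, fun j => by rw [l_X, hG.1]; simp⟩
  induction hF using Submodule.span_induction with
  | mem w hw =>
    obtain ⟨_, ⟨i, rfl⟩, _, ⟨j, rfl⟩, rfl⟩ := hw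
    change c0 (X i * X j) = 0 ∧ ∀ m, l m (X i * X j) = 0
    refine ⟨c0_X _ _, fun m => ?_⟩
    rw [l_X, ← mul_one (X j), c0_X]
    simp
  | zero => exact ⟨coeff_zero _, fun _ => coeff_zero _⟩
  | add c d _ _ hc hd =>
    exact ⟨by rw [c0_add, hc.1, hd.1, add_zero], fun i => by rw [l_add, hc.2, hd.2, add_zero]⟩
  | smul c d _ hd => exact h1 c d hd

end Pool.Agent.R688.GU.One
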