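import Pool.Agent.R688.GU.One

set_option autoImplicit false

/-!
# A level algebra with Hilbert function `(1, 3, 6, 2)`: the properties
-/

open MvPolynomial

namespace Pool.Agent.R688.GU.One

variable {k : Type} [Field k]


/-- the ideal `(x, y, z)²` of the quotient -/
noncomputable def 𝔞 : Ideal ((MvPolynomial (Fin 3) k) ⧸ I₁ k) := (mm ^ 2).map (Ideal.Quotient.mk (I₁ k))

theorem 𝔞_sq : (𝔞 : Ideal ((MvPolynomial (Fin 3) k) ⧸ I₁ k)) * 𝔞 = ⊥ := by
  unfold 𝔞
  rw [← Ideal.map_mul, eq_bot_iff, Ideal.map_le_iff_le_comap, Ideal.mul_le]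
  intro F hF G hG
  rw [Ideal.mem_comap, Ideal.mem_bot, Ideal.Quotient.eq_zero_iff_mem]
  obtain ⟨h1, h2⟩ := coeff_of_mem_sq hG
  exact mul_mem_I₁ hF h1 h2

theorem mk_mem {F : (MvPolynomial (Fin 3) k)} (h : c0 F = 0) (h' : ∀ i, l i F = 0) :
    Ideal.Quotient.mk (I₁ k) F ∈ (𝔞 : Ideal ((MvPolynomial (Fin 3) k) ⧸ I₁ k)) :=
  Ideal.mem_map_of_mem _ (mem_mm_sq h h')

theorem l_CX (i j : Fin 3) (c : k) : l i (C c * X j : (MvPolynomial (Fin 3) k)) = if j = i then c else 0 := by
  rw [l_C, ← mul_one (X j), l_X, c0_one]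
  split_ifs <;> simp

theorem c0_CX (j : Fin 3) (c : k) : c0 (C c * X j : (MvPolynomial (Fin 3) k)) = 0 := by
  rw [c0_C, ← mul_one (X j), c0_X, mul_zero]

theorem golod : IsGolod (xbar (I₁ k)) := by
  refine isGolod_three _ (𝔞 := 𝔞) 𝔞_sq (fun v h => ?_) (fun f h1 h2 h3 => ?_) (fun f h => ?_)
  · choose V hV using fun i => Ideal.Quotient.mk_surjective (I := I₁ k) (v i)
    obtain rfl : (fun i => Ideal.Quotient.mk (I₁ k) (V i)) = v := funext hV
    have h0 : Ideal.Quotient.mk (I₁ k) (V 0) * Ideal.Quotient.mk (I₁ k) (X 0) +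
      Ideal.Quotient.mk (I₁ k) (V 1) * Ideal.Quotient.mk (I₁ k) (X 1) +
      Ideal.Quotient.mk (I₁ k) (V 2) * Ideal.Quotient.mk (I₁ k) (X 2) = 0 := h
    have h1 : X 0 * V 0 + X 1 * V 1 + X 2 * V 2 ∈ I₁ k := by
      rw [← Ideal.Quotient.eq_zero_iff_mem, map_add, map_add, map_mul, map_mul, map_mul]
      linear_combination h0
    have c_0 := h1.2.1 0
    have c_1 := h1.2.1 1
    have c_2 := h1.2.1 2
    have q_00 := h1.2.2.1 0 0
    have q_11 := h1.2.2.1 1 1
    have q_22 := h1.2.2.1 2 2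
    have q_01 := h1.2.2.1 0 1
    have q_02 := h1.2.2.1 0 2
    have q_12 := h1.2.2.1 1 2
    simp [l_add, l_X] at c_0 c_1 c_2
    simp [q_add, q_X] at q_00 q_11 q_22 q_01 q_02 q_12
    refine ⟨![Ideal.Quotient.mk (I₁ k) (C (- l 2 (V 1))), Ideal.Quotient.mk (I₁ k) (C (- l 2 (V 0))),
      Ideal.Quotient.mk (I₁ k) (C (- l 1 (V 0)))], ?_, ?_, ?_⟩
    · have e : Ideal.Quotient.mk (I₁ k) (V 0 + C (- l 2 (V 0)) * X 2 + C (- l 1 (V 0)) * X 1) ∈
          (𝔞 : Ideal ((MvPolynomial (Fin 3) k) ⧸ I₁ k)) := by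
        apply mk_mem
        · rw [c0_add, c0_add, c0_CX, c0_CX, c_0]; simp
        · intro i
          rw [l_add, l_add, l_CX, l_CX]
          fin_cases i
          · simpa using q_00
          · simp
          · simp
      rw [map_add, map_add, map_mul, map_mul] at e
      exact e
    · have e : Ideal.Quotient.mk (I₁ k) (V 1 - C (- l 1 (V 0)) * X 0 + C (- l 2 (V 1)) * X 2) ∈
          (𝔞 : Ideal ((MvPolynomial (Fin 3) k) ⧸ I₁ k)) := by
        apply mk_mem
        · rw [c0_add, c0_sub, c0_CX, c0_CX, c_1]; simp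
        · intro i
          rw [l_add, l_sub, l_CX, l_CX]
          fin_cases i
          · simp
            linear_combination q_01
          · simpa using q_11
          · simp
      rw [map_add, map_sub, map_mul, map_mul] at e
      exact e
    · have e : Ideal.Quotient.mk (I₁ k) (V 2 - C (- l 2 (V 1)) * X 1 - C (- l 2 (V 0)) * X 0) ∈
          (𝔞 : Ideal ((MvPolynomial (Fin 3) k) ⧸ I₁ k)) := by
        apply mk_mem
        · rw [c0_sub, c0_sub, c0_CX, c0_CX, c_2]; simp
        · intro i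
          rw [l_sub, l_sub, l_CX, l_CX]
          fin_cases i
          · simp
            linear_combination q_02
          · simp
            linear_combination q_12
          · simpa using q_22
      rw [map_sub, map_sub, map_mul, map_mul] at e
      exact e
  · choose V hV using fun i => Ideal.Quotient.mk_surjective (I := I₁ k) (f i)
    obtain rfl : (fun i => Ideal.Quotient.mk (I₁ k) (V i)) = f := funext hV
    have g1 : X 2 * V 1 + X 1 * V 2 ∈ I₁ k := by
      have h0 : Ideal.Quotient.mk (I₁ k) (V 1) * Ideal.Quotient.mk (I₁ k) (X 2) +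
        Ideal.Quotient.mk (I₁ k) (V 2) * Ideal.Quotient.mk (I₁ k) (X 1) = 0 := h1
      rw [← Ideal.Quotient.eq_zero_iff_mem, map_add, map_mul, map_mul]
      linear_combination h0
    have g2 : X 0 * V 2 - X 2 * V 0 ∈ I₁ k := by
      have h0 : Ideal.Quotient.mk (I₁ k) (V 2) * Ideal.Quotient.mk (I₁ k) (X 0) =
        Ideal.Quotient.mk (I₁ k) (V 0) * Ideal.Quotient.mk (I₁ k) (X 2) := h2
      rw [← Ideal.Quotient.eq_zero_iff_mem, map_sub, map_mul, map_mul]
      linear_combination h0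
    have c_1 := g1.2.1 1
    have c_2 := g1.2.1 2
    have d_2 := g2.2.1 2
    have q_11 := g1.2.2.1 1 1
    have q_22 := g1.2.2.1 2 2
    have q_01 := g1.2.2.1 0 1
    have q_02 := g1.2.2.1 0 2
    have q_12 := g1.2.2.1 1 2
    have r_02 := g2.2.2.1 0 2
    have r_12 := g2.2.2.1 1 2
    have r_22 := g2.2.2.1 2 2
    simp [l_add, l_X] at c_1 c_2
    simp [l_sub, l_X] at d_2
    simp [q_add, q_X] at q_11 q_22 q_01 q_02 q_12
    simp [q_sub, q_X] at r_02 r_12 r_22
    refine ⟨Ideal.Quotient.mk (I₁ k) (C (l 0 (V 0))), ?_, ?_, ?_⟩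
    · have e : Ideal.Quotient.mk (I₁ k) (V 0 - C (l 0 (V 0)) * X 0) ∈
          (𝔞 : Ideal ((MvPolynomial (Fin 3) k) ⧸ I₁ k)) := by
        apply mk_mem
        · rw [c0_sub, c0_CX, d_2]; simp
        · intro i
          rw [l_sub, l_CX]
          fin_cases i
          · simp
          · simpa using r_12
          · simpa using r_22
      rw [map_sub, map_mul] at e
      exact e
    · have e : Ideal.Quotient.mk (I₁ k) (V 1 + C (l 0 (V 0)) * X 1) ∈
          (𝔞 : Ideal ((MvPolynomial (Fin 3) k) ⧸ I₁ k)) := by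
        apply mk_mem
        · rw [c0_add, c0_CX, c_2]; simp
        · intro i
          rw [l_add, l_CX]
          fin_cases i
          · simpa using q_02
          · simp
            linear_combination q_12 - r_02
          · simpa using q_22
      rw [map_add, map_mul] at e
      exact e
    · have e : Ideal.Quotient.mk (I₁ k) (V 2 - C (l 0 (V 0)) * X 2) ∈
          (𝔞 : Ideal ((MvPolynomial (Fin 3) k) ⧸ I₁ k)) := by
        apply mk_mem
        · rw [c0_sub, c0_CX, c_1]; simp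
        · intro i
          rw [l_sub, l_CX]
          fin_cases i
          · simpa using q_01
          · simpa using q_11
          · simp
            linear_combination r_02
      rw [map_sub, map_mul] at e
      exact e
  · obtain ⟨F, rfl⟩ := Ideal.Quotient.mk_surjective f
    have h1 : ∀ i, X i * F ∈ I₁ k := by
      intro i
      rw [← Ideal.Quotient.eq_zero_iff_mem, map_mul, mul_comm]
      exact h i
    apply mk_mem
    · have := (h1 0).2.1 0
      rwa [l_X, if_pos rfl] at this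
    · intro i
      have := (h1 i).2.2.1 i i
      rwa [q_X, if_pos rfl] at this

/-- the first socle element -/
noncomputable def su : (MvPolynomial (Fin 3) k) := X 0 * (X 0 * (X 0 * 1))
/-- the second socle element -/
noncomputable def sv : (MvPolynomial (Fin 3) k) := X 0 * (X 2 * (X 2 * 1))

theorem su_vals : c0 (su : (MvPolynomial (Fin 3) k)) = 0 ∧ (∀ i, l i (su : (MvPolynomial (Fin 3) k)) = 0) ∧ (∀ i j, q i j (su : (MvPolynomial (Fin 3) k)) = 0) ∧
    a (su : (MvPolynomial (Fin 3) k)) = 1 ∧ b (su : (MvPolynomial (Fin 3) k)) = 0 := by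
  unfold su
  refine ⟨c0_X _ _, fun i => ?_, fun i j => ?_, ?_, ?_⟩
  · rw [l_X, c0_X]; simp
  · rw [q_X, l_X, l_X, c0_X]; simp
  · rw [a_X, q_X, l_X, c0_one]; simp
  · rw [b_X, q_X, q_X]; simp

theorem sv_vals : c0 (sv : (MvPolynomial (Fin 3) k)) = 0 ∧ (∀ i, l i (sv : (MvPolynomial (Fin 3) k)) = 0) ∧ (∀ i j, q i j (sv : (MvPolynomial (Fin 3) k)) = 0) ∧
    a (sv : (MvPolynomial (Fin 3) k)) = 0 ∧ b (sv : (MvPolynomial (Fin 3) k)) = 1 := by
  unfold sv
  refine ⟨c0_X _ _, fun i => ?_, fun i j => ?_, ?_, ?_⟩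
  · rw [l_X, c0_X]; simp
  · rw [q_X, l_X, l_X, c0_X]; simp
  · rw [a_X, q_X, l_X]; simp
  · rw [b_X, q_X, q_X, l_X, c0_one]; simp

theorem socle_rep {F : (MvPolynomial (Fin 3) k)} (h : ∀ i, X i * F ∈ I₁ k) :
    F - (C (a F) * su + C (b F) * sv) ∈ I₁ k := by
  obtain ⟨u1, u2, u3, u4, u5⟩ := su_vals (k := k)
  obtain ⟨v1, v2, v3, v4, v5⟩ := sv_vals (k := k)
  have hc : c0 F = 0 := by
    have := (h 0).2.1 0
    rwa [l_X, if_pos rfl] at this
  have hl : ∀ i, l i F = 0 := by
    intro i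
    have := (h i).2.2.1 i i
    rwa [q_X, if_pos rfl] at this
  have a0 := (h 0).2.2.2.1
  have a1 := (h 1).2.2.2.1
  have a2 := (h 2).2.2.2.1
  have b0 := (h 0).2.2.2.2
  have b1 := (h 1).2.2.2.2
  have b2 := (h 2).2.2.2.2
  simp [a_X] at a0 a1 a2
  simp [b_X] at b0 b1 b2
  have b0' : q 2 2 F = 0 := by rw [a2, add_zero] at b0; exact b0
  have hq : ∀ i j, q i j F = 0 := by
    intro i j
    fin_cases i <;> fin_cases j
    · exact a0
    · exact b1
    · exact b2
    · rw [q_swap]; exact b1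
    · exact a2
    · exact a1
    · rw [q_swap]; exact b2
    · rw [q_swap]; exact a1
    · exact b0'
  refine ⟨?_, fun i => ?_, fun i j => ?_, ?_, ?_⟩
  · rw [c0_sub, c0_add, c0_C, c0_C, hc, u1, v1]; ring
  · rw [l_sub, l_add, l_C, l_C, hl, u2, v2]; ring
  · rw [q_sub, q_add, q_C, q_C, hq, u3, v3]; ring
  · rw [a_sub, a_add, a_C, a_C, u4, v4]; ring
  · rw [b_sub, b_add, b_C, b_C, u5, v5]; ring

theorem su_ne : Ideal.Quotient.mk (I₁ k) su ≠ 0 := by
  rw [Ne, Ideal.Quotient.eq_zero_iff_mem]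
  intro h
  have h1 := h.2.2.2.1
  rw [su_vals.2.2.2.1] at h1
  exact one_ne_zero h1

theorem su_kill (i : Fin 3) : Ideal.Quotient.mk (I₁ k) su * xbar (I₁ k) i = 0 := by
  change Ideal.Quotient.mk (I₁ k) su * Ideal.Quotient.mk (I₁ k) (X i) = 0
  rw [← map_mul, mul_comm, Ideal.Quotient.eq_zero_iff_mem]
  obtain ⟨u1, u2, u3, u4, u5⟩ := su_vals (k := k)
  exact inI_X u1 u2 u3 i

theorem sv_kill (i : Fin 3) : Ideal.Quotient.mk (I₁ k) sv * xbar (I₁ k) i = 0 := by
  change Ideal.Quotient.mk (I₁ k) sv * Ideal.Quotient.mk (I₁ k) (X i) = 0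
  rw [← map_mul, mul_comm, Ideal.Quotient.eq_zero_iff_mem]
  obtain ⟨u1, u2, u3, u4, u5⟩ := sv_vals (k := k)
  exact inI_X u1 u2 u3 i

theorem type_le : typeR (I₁ k) ≤ 2 := by
  have h := typeR_le (I := I₁ k) (m := 2)
    ![Ideal.Quotient.mk (I₁ k) su, Ideal.Quotient.mk (I₁ k) sv] (by
      intro j i
      fin_cases j
      · exact su_kill i
      · exact sv_kill i) ⟨0, su_ne⟩ (by
      intro r hr
      obtain ⟨F, rfl⟩ := Ideal.Quotient.mk_surjective r
      have h1 : ∀ i, X i * F ∈ I₁ k := by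
        intro i
        rw [← Ideal.Quotient.eq_zero_iff_mem, map_mul, mul_comm]
        exact hr i
      refine ⟨![Ideal.Quotient.mk (I₁ k) (C (a F)), Ideal.Quotient.mk (I₁ k) (C (b F))], ?_⟩
      have h2 := Ideal.Quotient.eq_zero_iff_mem.2 (socle_rep h1)
      rw [map_sub, map_add, map_mul, map_mul, sub_eq_zero] at h2
      rw [Fin.sum_univ_two]
      exact h2)
  exact_mod_cast h

theorem depth_zero : depthR (I₁ k) = 0 := depthR_eq_zero su_kill su_ne

theorem pow_four_mem (i : Fin 3) : (X i : (MvPolynomial (Fin 3) k)) ^ 4 ∈ I₁ k := by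
  have e : (X i : (MvPolynomial (Fin 3) k)) ^ 4 = X i * (X i * (X i * (X i * 1))) := by ring
  rw [e]
  apply inI_X (c0_X _ _)
  · intro m; rw [l_X, c0_X]; simp
  · intro m n; rw [q_X, l_X, l_X, c0_X]; simp

theorem height_ge : 3 ≤ (I₁ k).height := by
  apply le_height
  intro P hP hle
  have h : ∀ i, (X i : (MvPolynomial (Fin 3) k)) ∈ P := fun i => hP.mem_of_pow_mem 4 (hle (pow_four_mem i))
  exact three_le P (h 0) (h 1) (h 2)

end Pool.Agent.R688.GU.One
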